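import Pool.Agent.H95.ACS.Fam

/-!
# ACS-FAM4: the crude family `f4` in the initial state
-/

set_option autoImplicit false

open Finset
open scoped Classical

namespace Pool.Agent.H95.ACS

open Pool.Agent.H77.AC

variable {V : Type} [Fintype V] [DecidableEq V] {K : ℕ}
variable {G : SimpleGraph V} {Δ : ℕ}

theorem mem_ndG (x : PX V K) (u : V) (d : Fin K) : (u, d) ∈ ndG x ↔ u ∈ x.1 ∧ d = x.2 := by
  unfold ndG
  rw [Finset.mem_filter]
  exact ⟨fun h => h.2, fun h => ⟨Finset.mem_univ _, h⟩⟩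

/-- the exceptional case is impossible -/
theorem nodes_contra (n₀ : ℕ) (z z' : PX V K) (H₁ H₂ : Finset (PX V K))
    (hH₁ : H₁ ∈ (gS G K n₀).C) (hH₂ : H₂ ∈ (gS G K n₀).C) (hz' : z' ∈ H₂)
    (hsub : H₂.erase z' ⊆ H₁)
    (hd : ∀ y ∈ H₁.erase z, Disjoint (ndG y) (ndG z ∪ ndG z')) : z.1 = z'.1 := by
  obtain ⟨_, n, _, hc₂⟩ := Finset.mem_filter.mp hH₂
  obtain ⟨_, m, _, hc₁⟩ := Finset.mem_filter.mp hH₁
  obtain ⟨e', b⟩ := z'
  induction e' using Sym2.ind with
  | h p q =>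
  obtain ⟨v, c, hv, hadj, hbc, hp, hq, rfl⟩ := cyc_param G n H₂ hc₂ p q b hz'
  obtain ⟨v', b', c', hv', _, _, rfl⟩ := hc₁
  have hcol : ∀ y ∈ univ.image (cstep v' b' c'), y.2 = b' ∨ y.2 = c' := by
    intro y hy
    rw [Finset.mem_image] at hy
    obtain ⟨j, _, rfl⟩ := hy
    unfold cstep
    simp only
    split_ifs
    · exact Or.inl rfl
    · exact Or.inr rfl
  have hz0 : cstep v b c 0 = (s(p, q), b) := by
    unfold cstep
    simp [hp, hq]
  have hinj := cstep_inj v hv b c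
  have hmem : ∀ j : Fin (2 * n + 4), j ≠ 0 → cstep v b c j ∈ univ.image (cstep v' b' c') := by
    intro j hj
    apply hsub
    rw [Finset.mem_erase]
    refine ⟨?_, Finset.mem_image_of_mem _ (Finset.mem_univ _)⟩
    rw [← hz0]
    intro he
    exact hj (hinj (congrArg Prod.fst he))
  have h1v : ((1 : Fin (2 * n + 4)) : ℕ) = 1 := val_one_fin
  have h1 : (1 : Fin (2 * n + 4)) ≠ 0 := by
    intro h
    have := congrArg (fun t : Fin (2 * n + 4) => (t : ℕ)) h
    simp only [h1v] at this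
    have e5 : ((0 : Fin (2 * n + 4)) : ℕ) = 0 := rfl
    omega
  have h2v : ((1 + 1 : Fin (2 * n + 4)) : ℕ) = 2 := by
    rw [Fin.val_add, h1v, Nat.mod_eq_of_lt (by omega)]
  have h2 : (1 + 1 : Fin (2 * n + 4)) ≠ 0 := by
    intro h
    have := congrArg (fun t : Fin (2 * n + 4) => (t : ℕ)) h
    simp only [h2v] at this
    have e5 : ((0 : Fin (2 * n + 4)) : ℕ) = 0 := rfl
    omega
  have hm1 : (-1 : Fin (2 * n + 4)) ≠ 0 := by
    intro h
    exact h1 (neg_eq_zero.mp h)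
  have hbcol : b = b' ∨ b = c' := by
    have := hcol _ (hmem _ h2)
    unfold cstep at this
    simp only [h2v] at this
    simpa using this
  have key : ∀ j : Fin (2 * n + 4), j ≠ 0 → ∀ u : V, u ∈ (cstep v b c j).1 → u ∈ s(p, q) →
      u ∈ z.1 := by
    intro j hj u hu hupq
    have hjm := hmem j hj
    rw [Finset.mem_image] at hjm
    obtain ⟨i, _, hi⟩ := hjm
    rw [← hi] at hu
    have hvert : ∃ i', u = v' i' := by
      unfold cstep at hu
      simp only [Sym2.mem_iff] at hu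
      rcases hu with h | h
      · exact ⟨_, h⟩
      · exact ⟨_, h⟩
    obtain ⟨i', rfl⟩ := hvert
    obtain ⟨j', hj1, hj2⟩ := cyc_node m v' b' c' i' b hbcol
    by_cases hw : cstep v' b' c' j' = z
    · rw [← hw]
      exact hj1
    · exfalso
      have hmem' : cstep v' b' c' j' ∈ (univ.image (cstep v' b' c')).erase z :=
        Finset.mem_erase.mpr ⟨hw, Finset.mem_image_of_mem _ (Finset.mem_univ _)⟩
      have := hd _ hmem'
      rw [Finset.disjoint_left] at this
      refine this ((mem_ndG _ (v' i') b).mpr ⟨hj1, hj2.symm⟩) ?_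
      rw [Finset.mem_union]
      exact Or.inr ((mem_ndG _ (v' i') b).mpr ⟨hupq, rfl⟩)
  have hzq : q ∈ z.1 := by
    refine key 1 h1 q ?_ (by simp)
    rw [← hq]
    unfold cstep
    simp
  have hzp : p ∈ z.1 := by
    refine key (-1) hm1 p ?_ (by simp)
    rw [← hp]
    unfold cstep
    simp
  have hpq : p ≠ q := by
    rw [← hp, ← hq]
    intro h
    exact h1 (hv h).symm
  exact (Sym2.mem_and_mem_iff hpq).mp ⟨hzp, hzq⟩

theorem erase_split (H B : Finset (PX V K)) (z : PX V K) (hz : z ∈ H) (hzB : z ∉ B) :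
    (H.erase z \ B).card + 1 + (B ∩ H).card = H.card := by
  have h1 := Finset.card_sdiff_add_card_inter (H.erase z) B
  have h2 : H.erase z ∩ B = B ∩ H := by
    ext t
    simp only [Finset.mem_inter, Finset.mem_erase]
    constructor
    · rintro ⟨⟨_, h⟩, h'⟩
      exact ⟨h', h⟩
    · rintro ⟨h', h⟩
      refine ⟨⟨?_, h⟩, h'⟩
      rintro rfl
      exact hzB h'
  rw [h2, Finset.card_erase_of_mem hz] at h1
  have : 0 < H.card := Finset.card_pos.mpr ⟨z, hz⟩
  omega

theorem union_split (H₁ H₂ A : Finset (PX V K)) (z z' : PX V K) (hz2 : z ∉ H₂) :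
    ((H₁.erase z ∪ H₂.erase z') \ A).card =
      (H₁.erase z \ A).card + (H₂.erase z' \ (A ∪ H₁)).card := by
  rw [← Finset.card_union_of_disjoint]
  · congr 1
    ext t
    simp only [Finset.mem_sdiff, Finset.mem_union, Finset.mem_erase]
    constructor
    · rintro ⟨h | h, hA⟩
      · exact Or.inl ⟨h, hA⟩
      · by_cases ht : t ∈ H₁
        · by_cases htz : t = z
          · subst htz
            exact absurd h.2 hz2
          · exact Or.inl ⟨⟨htz, ht⟩, hA⟩
        · refine Or.inr ⟨h, ?_⟩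
          rintro (h' | h')
          · exact hA h'
          · exact ht h'
    · rintro (⟨h, hA⟩ | ⟨h, hA⟩)
      · exact ⟨Or.inl h, hA⟩
      · exact ⟨Or.inr h, fun h' => hA (Or.inl h')⟩
  · rw [Finset.disjoint_left]
    intro t h1 h2
    simp only [Finset.mem_sdiff, Finset.mem_union, Finset.mem_erase] at h1 h2
    exact h2.2 (Or.inr h1.1.2)

/-- data of a pair of short sets in the family `f4` -/
structure PD (G : SimpleGraph V) (K n₀ : ℕ) (z z' : PX V K) (A : Finset (PX V K)) (n : ℕ)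
    (P : Finset (PX V K) × Finset (PX V K)) : Prop where
  c1 : P.1 ∈ (gS G K n₀).C
  c2 : P.2 ∈ (gS G K n₀).C
  ed : z.1 ≠ z'.1
  z1 : z ∈ P.1
  z2 : z' ∈ P.2
  z3 : z' ∉ P.1
  z4 : z ∉ P.2
  ne : (P.1 ∩ P.2).Nonempty
  dis : ∀ y ∈ P.1.erase z ∪ P.2.erase z', Disjoint (ndG y) (ndG z ∪ ndG z')
  sub : A ⊆ P.1.erase z ∪ P.2.erase z'
  card : ((P.1.erase z ∪ P.2.erase z') \ A).card = n

theorem PD.zA {n₀ : ℕ} {z z' : PX V K} {A : Finset (PX V K)} {n : ℕ}
    {P : Finset (PX V K) × Finset (PX V K)} (h : PD G K n₀ z z' A n P) : z ∉ A := by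
  intro hz
  have := h.sub hz
  simp only [Finset.mem_union, Finset.mem_erase] at this
  rcases this with h' | h'
  · exact h'.1 rfl
  · exact h.z4 h'.2

theorem PD.zA' {n₀ : ℕ} {z z' : PX V K} {A : Finset (PX V K)} {n : ℕ}
    {P : Finset (PX V K) × Finset (PX V K)} (h : PD G K n₀ z z' A n P) : z' ∉ A := by
  intro hz
  have := h.sub hz
  simp only [Finset.mem_union, Finset.mem_erase] at this
  rcases this with h' | h'
  · exact h.z3 h'.2
  · exact h'.1 rfl

theorem PD.split {n₀ : ℕ} {z z' : PX V K} {A : Finset (PX V K)} {n : ℕ}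
    {P : Finset (PX V K) × Finset (PX V K)} (h : PD G K n₀ z z' A n P) :
    (P.1.erase z \ A).card + (P.2.erase z' \ (A ∪ P.1)).card = n := by
  rw [← union_split P.1 P.2 A z z' h.z4]
  exact h.card

theorem C_card_le (n₀ : ℕ) (H : Finset (PX V K)) (hH : H ∈ (gS G K n₀).C) :
    H.card ≤ 2 * n₀ + 2 := by
  obtain ⟨_, n, hn, hc⟩ := Finset.mem_filter.mp hH
  have := isCyc_card G n H hc
  omega

theorem PD.bounds {n₀ : ℕ} {z z' : PX V K} {A : Finset (PX V K)} {n : ℕ}
    {P : Finset (PX V K) × Finset (PX V K)} (h : PD G K n₀ z z' A n P) :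
    A.card ≤ 4 * n₀ + 4 ∧ n ≤ 4 * n₀ + 4 := by
  have h1 := C_card_le n₀ P.1 h.c1
  have h2 := C_card_le n₀ P.2 h.c2
  have h3 : (P.1.erase z ∪ P.2.erase z').card ≤ 4 * n₀ + 4 := by
    refine le_trans (Finset.card_union_le _ _) ?_
    have h4 := Finset.card_erase_le (s := P.1) (a := z)
    have h5 := Finset.card_erase_le (s := P.2) (a := z')
    omega
  refine ⟨le_trans (Finset.card_le_card h.sub) h3, ?_⟩
  have := Finset.card_le_card (Finset.sdiff_subset (s := P.1.erase z ∪ P.2.erase z') (t := A))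
  rw [h.card] at this
  omega

/-- second component for a given first component -/
theorem fib2 (hΔ : ∀ v, (univ.filter (fun u => G.Adj v u)).card ≤ Δ) (hΔK : Δ ≤ K) (hK : 0 < K)
    (n₀ : ℕ) (z : PX V K) (B : Finset (PX V K)) (m L : ℕ) (hB : B.card ≤ L)
    (S : Finset (Finset (PX V K)))
    (hS : ∀ H ∈ S, H ∈ (gS G K n₀).C ∧ z ∈ H ∧ z ∉ B ∧ (B ∩ H).Nonempty ∧
      (H.erase z \ B).card = m) :
    S.card ≤ 2 ^ L * (cc n₀ * K ^ (m - 1)) := by
  obtain ⟨W, hW⟩ : ∃ W : Finset (PX V K) → Finset (Finset (PX V K)),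
      W = fun T => S.filter (fun H => B ∩ H = T) := ⟨_, rfl⟩
  have hsub : S ⊆ B.powerset.biUnion W := by
    intro H hH
    rw [Finset.mem_biUnion]
    refine ⟨B ∩ H, Finset.mem_powerset.mpr Finset.inter_subset_left, ?_⟩
    rw [hW]
    exact Finset.mem_filter.mpr ⟨hH, rfl⟩
  refine le_trans (Finset.card_le_card hsub) (le_trans Finset.card_biUnion_le ?_)
  have hterm : ∀ T ∈ B.powerset, (W T).card ≤ cc n₀ * K ^ (m - 1) := by
    intro T _
    by_cases hem : W T = ∅
    · rw [hem, Finset.card_empty]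
      exact Nat.zero_le _
    obtain ⟨H₀, hH₀⟩ := Finset.nonempty_iff_ne_empty.mpr hem
    rw [hW] at hH₀
    obtain ⟨hH₀S, hT₀⟩ := Finset.mem_filter.mp hH₀
    obtain ⟨_, _, g3, g4, _⟩ := hS H₀ hH₀S
    have hzT : z ∉ T := by
      rw [← hT₀]
      intro h
      exact g3 (Finset.mem_inter.mp h).1
    have hTne : T.Nonempty := by
      rw [← hT₀]
      exact g4
    refine C1 hΔ hΔK hK n₀ z T hzT hTne m (W T) ?_
    intro H hH
    rw [hW] at hH
    obtain ⟨hHS, hT⟩ := Finset.mem_filter.mp hH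
    obtain ⟨k1, k2, k3, _, k5⟩ := hS H hHS
    refine ⟨k1, ⟨k2, ?_⟩, ?_⟩
    · rw [← hT]
      exact Finset.inter_subset_right
    · have := erase_split H B z k2 k3
      rw [k5, hT] at this
      omega
  refine le_trans (Finset.sum_le_card_nsmul _ _ _ hterm) ?_
  rw [Finset.card_powerset, smul_eq_mul]
  exact Nat.mul_le_mul_right _ (Nat.pow_le_pow_right (by norm_num) hB)

/-- the pairs counted in case I with given data -/
theorem caseI_one (hΔ : ∀ v, (univ.filter (fun u => G.Adj v u)).card ≤ Δ) (hΔK : Δ ≤ K)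
    (hK : 0 < K) (n₀ : ℕ) (z z' : PX V K) (A : Finset (PX V K)) (n : ℕ) (A₁ : Finset (PX V K))
    (n₁ : ℕ) (R : Finset (Finset (PX V K) × Finset (PX V K)))
    (hR : ∀ P ∈ R, PD G K n₀ z z' A n P ∧ A ∩ P.1 = A₁ ∧ (P.1.erase z \ A).card = n₁ ∧
      ¬ (A ∩ P.1 = ∅ ∧ P.2.erase z' ⊆ A ∪ P.1)) :
    R.card ≤ (2 ^ (2 * (4 * n₀ + 4)) * cc n₀ * cc n₀) * K ^ (n - 1) := by
  by_cases hem : R = ∅
  · rw [hem, Finset.card_empty]
    exact Nat.zero_le _
  obtain ⟨P₀, hP₀⟩ := Finset.nonempty_iff_ne_empty.mpr hem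
  obtain ⟨pd₀, a₀, b₀, c₀⟩ := hR P₀ hP₀
  have hzA := pd₀.zA
  have hbd := pd₀.bounds
  have hsp₀ := pd₀.split
  obtain ⟨t, ht⟩ : ∃ t : Finset (Finset (PX V K)), t = R.image Prod.fst := ⟨_, rfl⟩
  have htp : ∀ H ∈ t, H ∈ (gS G K n₀).C ∧ z ∈ H ∧ A₁ ⊆ H ∧ H.card = A₁.card + 1 + n₁ := by
    intro H hH
    rw [ht, Finset.mem_image] at hH
    obtain ⟨P, hP, rfl⟩ := hH
    obtain ⟨pd, a, b, _⟩ := hR P hP
    refine ⟨pd.c1, pd.z1, ?_, ?_⟩
    · rw [← a]
      exact Finset.inter_subset_right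
    · have := erase_split P.1 A z pd.z1 pd.zA
      rw [b, a] at this
      omega
  have hfib : R.card ≤ (2 ^ (2 * (4 * n₀ + 4)) * (cc n₀ * K ^ ((n - n₁) - 1))) * t.card := by
    refine Finset.card_le_mul_card_image_of_maps_to (f := Prod.fst) ?_ _ ?_
    · intro P hP
      rw [ht]
      exact Finset.mem_image_of_mem _ hP
    · intro H hH
      obtain ⟨S, hS⟩ : ∃ S : Finset (Finset (PX V K)),
          S = (R.filter (fun P => P.1 = H)).image Prod.snd := ⟨_, rfl⟩
      have hSc : (R.filter (fun P => P.1 = H)).card ≤ S.card := by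
        rw [hS, Finset.card_image_of_injOn]
        intro P hP Q hQ he
        have h1 := (Finset.mem_filter.mp (Finset.mem_coe.mp hP)).2
        have h2 := (Finset.mem_filter.mp (Finset.mem_coe.mp hQ)).2
        exact Prod.ext (h1.trans h2.symm) he
      refine le_trans hSc ?_
      have hHc : (A ∪ H).card ≤ 2 * (4 * n₀ + 4) := by
        have h1 := Finset.card_union_le A H
        have h2 := C_card_le n₀ H (htp H hH).1
        omega
      refine fib2 hΔ hΔK hK n₀ z' (A ∪ H) (n - n₁) (2 * (4 * n₀ + 4)) hHc S ?_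
      intro H' hH'
      rw [hS, Finset.mem_image] at hH'
      obtain ⟨P, hP, rfl⟩ := hH'
      obtain ⟨hPR, rfl⟩ := Finset.mem_filter.mp hP
      obtain ⟨pd, a, b, _⟩ := hR P hPR
      refine ⟨pd.c2, pd.z2, ?_, ?_, ?_⟩
      · rw [Finset.mem_union]
        rintro (h | h)
        · exact pd.zA' h
        · exact pd.z3 h
      · obtain ⟨y, hy⟩ := pd.ne
        rw [Finset.mem_inter] at hy
        exact ⟨y, Finset.mem_inter.mpr ⟨Finset.mem_union_right _ hy.1, hy.2⟩⟩
      · have := pd.split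
        rw [b] at this
        omega
  have hcc := cc_pos n₀
  refine le_trans hfib ?_
  by_cases hA₁ : A₁ = ∅
  · have htc : t.card ≤ K ^ n₁ := by
      refine C0 hΔ hΔK n₀ z n₁ t ?_
      intro H hH
      obtain ⟨h1, h2, _, h4⟩ := htp H hH
      rw [hA₁, Finset.card_empty, zero_add] at h4
      exact ⟨h1, h2, h4⟩
    have hn2 : 1 ≤ n - n₁ := by
      have h1 : ¬ P₀.2.erase z' ⊆ A ∪ P₀.1 := fun h => c₀ ⟨by rw [a₀, hA₁], h⟩
      have h2 : 0 < (P₀.2.erase z' \ (A ∪ P₀.1)).card := by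
        rw [Finset.card_pos, Finset.nonempty_iff_ne_empty]
        intro h
        exact h1 (Finset.sdiff_eq_empty_iff_subset.mp h)
      omega
    calc (2 ^ (2 * (4 * n₀ + 4)) * (cc n₀ * K ^ ((n - n₁) - 1))) * t.card
        ≤ (2 ^ (2 * (4 * n₀ + 4)) * (cc n₀ * K ^ ((n - n₁) - 1))) * K ^ n₁ :=
          Nat.mul_le_mul_left _ htc
      _ = (2 ^ (2 * (4 * n₀ + 4)) * cc n₀ * 1) * (K ^ ((n - n₁) - 1) * K ^ n₁) := by ring
      _ = (2 ^ (2 * (4 * n₀ + 4)) * cc n₀ * 1) * K ^ (n - 1) := by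
          rw [← pow_add]
          congr 2
          omega
      _ ≤ (2 ^ (2 * (4 * n₀ + 4)) * cc n₀ * cc n₀) * K ^ (n - 1) :=
          Nat.mul_le_mul_right _ (Nat.mul_le_mul_left _ hcc)
  · have hne : A₁.Nonempty := Finset.nonempty_iff_ne_empty.mpr hA₁
    have hzA₁ : z ∉ A₁ := by
      rw [← a₀]
      intro h
      exact hzA (Finset.mem_inter.mp h).1
    have htc : t.card ≤ cc n₀ * K ^ (n₁ - 1) := by
      refine C1 hΔ hΔK hK n₀ z A₁ hzA₁ hne n₁ t ?_
      intro H hH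
      obtain ⟨h1, h2, h3, h4⟩ := htp H hH
      exact ⟨h1, ⟨h2, h3⟩, h4⟩
    calc (2 ^ (2 * (4 * n₀ + 4)) * (cc n₀ * K ^ ((n - n₁) - 1))) * t.card
        ≤ (2 ^ (2 * (4 * n₀ + 4)) * (cc n₀ * K ^ ((n - n₁) - 1))) * (cc n₀ * K ^ (n₁ - 1)) :=
          Nat.mul_le_mul_left _ htc
      _ = (2 ^ (2 * (4 * n₀ + 4)) * cc n₀ * cc n₀) *
            (K ^ ((n - n₁) - 1) * K ^ (n₁ - 1)) := by ring
      _ ≤ (2 ^ (2 * (4 * n₀ + 4)) * cc n₀ * cc n₀) * K ^ (n - 1) := by
          refine Nat.mul_le_mul_left _ ?_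
          rw [← pow_add]
          refine Nat.pow_le_pow_right hK ?_
          omega

/-- the pairs counted in case II with given data -/
theorem caseII_one (hΔ : ∀ v, (univ.filter (fun u => G.Adj v u)).card ≤ Δ) (hΔK : Δ ≤ K)
    (hK : 0 < K) (n₀ : ℕ) (z z' : PX V K) (A : Finset (PX V K)) (hA : A.Nonempty) (n i : ℕ)
    (R : Finset (Finset (PX V K) × Finset (PX V K)))
    (hR : ∀ P ∈ R, PD G K n₀ z z' A n P ∧ (P.1 ∩ P.2).card = i ∧
      (A ∩ P.1 = ∅ ∧ P.2.erase z' ⊆ A ∪ P.1)) :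
    R.card ≤ (2 ^ (2 * (4 * n₀ + 4)) * cc n₀ * cc n₀) * K ^ (n - 1) := by
  by_cases hem : R = ∅
  · rw [hem, Finset.card_empty]
    exact Nat.zero_le _
  obtain ⟨P₀, hP₀⟩ := Finset.nonempty_iff_ne_empty.mpr hem
  obtain ⟨pd₀, _, _⟩ := hR P₀ hP₀
  have hzA' := pd₀.zA'
  obtain ⟨t, ht⟩ : ∃ t : Finset (Finset (PX V K)), t = R.image Prod.snd := ⟨_, rfl⟩
  have facts : ∀ P ∈ R, (P.1.erase z).card = n ∧ P.2.card = A.card + 1 + i ∧ A ⊆ P.2 ∧
      (P.1.erase z \ P.2).card = n - i ∧ i ≤ n := by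
    intro P hP
    obtain ⟨pd, hi, hA0, hsub⟩ := hR P hP
    have hs := pd.split
    have e1 : P.2.erase z' \ (A ∪ P.1) = ∅ := Finset.sdiff_eq_empty_iff_subset.mpr hsub
    rw [e1, Finset.card_empty, add_zero] at hs
    have e2 : P.1.erase z \ A = P.1.erase z := by
      rw [Finset.sdiff_eq_self_iff_disjoint, Finset.disjoint_left]
      intro y hy hyA
      have : y ∈ A ∩ P.1 := Finset.mem_inter.mpr ⟨hyA, (Finset.mem_erase.mp hy).2⟩
      rw [hA0] at this
      exact absurd this (Finset.notMem_empty _)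
    rw [e2] at hs
    have hAsub : A ⊆ P.2.erase z' := by
      intro y hy
      have := pd.sub hy
      rw [Finset.mem_union] at this
      rcases this with h | h
      · exfalso
        have : y ∈ A ∩ P.1 := Finset.mem_inter.mpr ⟨hy, (Finset.mem_erase.mp h).2⟩
        rw [hA0] at this
        exact absurd this (Finset.notMem_empty _)
      · exact h
    have e3 : P.2.erase z' = A ∪ (P.1 ∩ P.2) := by
      ext y
      constructor
      · intro hy
        have := hsub hy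
        rw [Finset.mem_union] at this ⊢
        rcases this with h | h
        · exact Or.inl h
        · exact Or.inr (Finset.mem_inter.mpr ⟨h, (Finset.mem_erase.mp hy).2⟩)
      · intro hy
        rw [Finset.mem_union] at hy
        rcases hy with h | h
        · exact hAsub h
        · rw [Finset.mem_inter] at h
          refine Finset.mem_erase.mpr ⟨?_, h.2⟩
          rintro rfl
          exact pd.z3 h.1
    have e4 : (P.2.erase z').card = A.card + i := by
      rw [e3, Finset.card_union_of_disjoint, hi]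
      rw [Finset.disjoint_left]
      intro y hy hy'
      have : y ∈ A ∩ P.1 := Finset.mem_inter.mpr ⟨hy, (Finset.mem_inter.mp hy').1⟩
      rw [hA0] at this
      exact absurd this (Finset.notMem_empty _)
    have e5 : P.2.card = A.card + 1 + i := by
      rw [Finset.card_erase_of_mem pd.z2] at e4
      have : 0 < P.2.card := Finset.card_pos.mpr ⟨z', pd.z2⟩
      omega
    have e6 := Finset.card_sdiff_add_card_inter (P.1.erase z) P.2
    have e7 : P.1.erase z ∩ P.2 = P.1 ∩ P.2 := by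
      ext y
      simp only [Finset.mem_inter, Finset.mem_erase]
      constructor
      · rintro ⟨⟨_, h⟩, h'⟩
        exact ⟨h, h'⟩
      · rintro ⟨h, h'⟩
        refine ⟨⟨?_, h⟩, h'⟩
        rintro rfl
        exact pd.z4 h'
    rw [e7, hi, hs] at e6
    exact ⟨hs, e5, hAsub.trans (Finset.erase_subset _ _), by omega, by omega⟩
  have htp : ∀ H ∈ t, H ∈ (gS G K n₀).C ∧ (z' ∈ H ∧ A ⊆ H) ∧ H.card = A.card + 1 + i := by
    intro H hH
    rw [ht, Finset.mem_image] at hH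
    obtain ⟨P, hP, rfl⟩ := hH
    obtain ⟨pd, _, _⟩ := hR P hP
    obtain ⟨_, f2, f3, _, _⟩ := facts P hP
    exact ⟨pd.c2, ⟨pd.z2, f3⟩, f2⟩
  have hin := (facts P₀ hP₀).2.2.2.2
  have hfib : R.card ≤ (2 ^ (2 * (4 * n₀ + 4)) * (cc n₀ * K ^ ((n - i) - 1))) * t.card := by
    refine Finset.card_le_mul_card_image_of_maps_to (f := Prod.snd) ?_ _ ?_
    · intro P hP
      rw [ht]
      exact Finset.mem_image_of_mem _ hP
    · intro H hH
      obtain ⟨S, hS⟩ : ∃ S : Finset (Finset (PX V K)),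
          S = (R.filter (fun P => P.2 = H)).image Prod.fst := ⟨_, rfl⟩
      have hSc : (R.filter (fun P => P.2 = H)).card ≤ S.card := by
        rw [hS, Finset.card_image_of_injOn]
        intro P hP Q hQ he
        have h1 := (Finset.mem_filter.mp (Finset.mem_coe.mp hP)).2
        have h2 := (Finset.mem_filter.mp (Finset.mem_coe.mp hQ)).2
        exact Prod.ext he (h1.trans h2.symm)
      refine le_trans hSc ?_
      have hHc : H.card ≤ 2 * (4 * n₀ + 4) := by
        have h2 := C_card_le n₀ H (htp H hH).1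
        omega
      refine fib2 hΔ hΔK hK n₀ z H (n - i) (2 * (4 * n₀ + 4)) hHc S ?_
      intro H' hH'
      rw [hS, Finset.mem_image] at hH'
      obtain ⟨P, hP, rfl⟩ := hH'
      obtain ⟨hPR, rfl⟩ := Finset.mem_filter.mp hP
      obtain ⟨pd, _, _⟩ := hR P hPR
      refine ⟨pd.c1, pd.z1, pd.z4, ?_, ?_⟩
      · obtain ⟨y, hy⟩ := pd.ne
        rw [Finset.mem_inter] at hy
        exact ⟨y, Finset.mem_inter.mpr ⟨hy.2, hy.1⟩⟩
      · exact (facts P hPR).2.2.2.1
  have htc : t.card ≤ cc n₀ * K ^ (i - 1) := C1 hΔ hΔK hK n₀ z' A hzA' hA i t htp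
  refine le_trans hfib ?_
  calc (2 ^ (2 * (4 * n₀ + 4)) * (cc n₀ * K ^ ((n - i) - 1))) * t.card
      ≤ (2 ^ (2 * (4 * n₀ + 4)) * (cc n₀ * K ^ ((n - i) - 1))) * (cc n₀ * K ^ (i - 1)) :=
        Nat.mul_le_mul_left _ htc
    _ = (2 ^ (2 * (4 * n₀ + 4)) * cc n₀ * cc n₀) *
          (K ^ ((n - i) - 1) * K ^ (i - 1)) := by ring
    _ ≤ (2 ^ (2 * (4 * n₀ + 4)) * cc n₀ * cc n₀) * K ^ (n - 1) := by
        refine Nat.mul_le_mul_left _ ?_
        rw [← pow_add]
        refine Nat.pow_le_pow_right hK ?_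
        omega

theorem mem_f4 {X E N : Type} [DecidableEq X] [DecidableEq E] [DecidableEq N] (S : Sys X E N)
    (z z' : X) (Q : Finset X) (h : Q ∈ (Fm.f4 z z' : Fm X E N).sets S) :
    ∃ P : Finset X × Finset X, P.1 ∈ S.C ∧ P.2 ∈ S.C ∧ S.ed z ≠ S.ed z' ∧ z ∈ P.1 ∧ z' ∈ P.2 ∧
      z' ∉ P.1 ∧ z ∉ P.2 ∧ (P.1 ∩ P.2).Nonempty ∧
      (∀ y ∈ P.1.erase z ∪ P.2.erase z', Disjoint (S.nd y) (S.nd z ∪ S.nd z')) ∧
      P.1.erase z ∪ P.2.erase z' = Q := by
  unfold Fm.sets at h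
  rw [Finset.mem_image] at h
  obtain ⟨P, hP, rfl⟩ := h
  rw [Finset.mem_filter, Finset.mem_product] at hP
  obtain ⟨⟨a, b⟩, h1, h2, h3, h4, h5, h6, h7⟩ := hP
  exact ⟨P, a, b, h1, h2, h3, h4, h5, h6, h7, rfl⟩

/-- the constant for `f4` -/
def c4 (n₀ : ℕ) : ℕ :=
  (2 ^ (4 * n₀ + 4) * (4 * n₀ + 5) + (4 * n₀ + 5)) *
    (2 ^ (2 * (4 * n₀ + 4)) * cc n₀ * cc n₀)

theorem fam4 (hΔ : ∀ v, (univ.filter (fun u => G.Adj v u)).card ≤ Δ) (hΔK : Δ ≤ K) (hK : 0 < K)
    (n₀ : ℕ) (z z' : PX V K) (A : Finset (PX V K)) (n : ℕ) :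
    cnt (st0 G K) ((Fm.f4 z z').sets (gS G K n₀)) A n ≤ c4 n₀ * K ^ (n - 1) := by
  obtain ⟨S, hS⟩ : ∃ S : Finset (Finset (PX V K) × Finset (PX V K)),
      S = univ.filter (fun P => PD G K n₀ z z' A n P) := ⟨_, rfl⟩
  have hcnt : cnt (st0 G K) ((Fm.f4 z z').sets (gS G K n₀)) A n ≤ S.card := by
    unfold cnt
    refine le_trans (Finset.card_le_card ?_)
      (Finset.card_image_le (s := S) (f := fun P => P.1.erase z ∪ P.2.erase z'))
    intro Q hQ
    obtain ⟨g1, g2, g3⟩ := cnt_st0 G _ A n Q hQ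
    obtain ⟨P, a, b, h1, h2, h3, h4, h5, h6, h7, rfl⟩ := mem_f4 (gS G K n₀) z z' Q g1
    rw [Finset.mem_image]
    refine ⟨P, ?_, rfl⟩
    rw [hS, Finset.mem_filter]
    exact ⟨Finset.mem_univ _, ⟨a, b, h1, h2, h3, h4, h5, h6, h7, g2, g3⟩⟩
  refine le_trans hcnt ?_
  by_cases hem : S = ∅
  · rw [hem, Finset.card_empty]
    exact Nat.zero_le _
  obtain ⟨P₀, hP₀⟩ := Finset.nonempty_iff_ne_empty.mpr hem
  rw [hS] at hP₀
  have hbd := (Finset.mem_filter.mp hP₀).2.bounds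
  have hPD : ∀ P ∈ S, PD G K n₀ z z' A n P := by
    intro P hP
    rw [hS] at hP
    exact (Finset.mem_filter.mp hP).2
  obtain ⟨M, hM⟩ : ∃ M : ℕ, M = (2 ^ (2 * (4 * n₀ + 4)) * cc n₀ * cc n₀) * K ^ (n - 1) :=
    ⟨_, rfl⟩
  obtain ⟨S₁, hS₁⟩ : ∃ S₁ : Finset (Finset (PX V K) × Finset (PX V K)),
      S₁ = S.filter (fun P => ¬ (A ∩ P.1 = ∅ ∧ P.2.erase z' ⊆ A ∪ P.1)) := ⟨_, rfl⟩
  obtain ⟨S₂, hS₂⟩ : ∃ S₂ : Finset (Finset (PX V K) × Finset (PX V K)),
      S₂ = S.filter (fun P => (A ∩ P.1 = ∅ ∧ P.2.erase z' ⊆ A ∪ P.1)) := ⟨_, rfl⟩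
  have hS12 : S ⊆ S₁ ∪ S₂ := by
    intro P hP
    rw [Finset.mem_union, hS₁, hS₂, Finset.mem_filter, Finset.mem_filter]
    by_cases h : A ∩ P.1 = ∅ ∧ P.2.erase z' ⊆ A ∪ P.1
    · exact Or.inr ⟨hP, h⟩
    · exact Or.inl ⟨hP, h⟩
  have hb1 : S₁.card ≤ 2 ^ (4 * n₀ + 4) * (4 * n₀ + 5) * M := by
    obtain ⟨R, hR⟩ : ∃ R : Finset (PX V K) × ℕ → Finset (Finset (PX V K) × Finset (PX V K)),
        R = fun D => S₁.filter (fun P => A ∩ P.1 = D.1 ∧ (P.1.erase z \ A).card = D.2) :=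
      ⟨_, rfl⟩
    have hsub : S₁ ⊆ (A.powerset ×ˢ range (n + 1)).biUnion R := by
      intro P hP
      rw [Finset.mem_biUnion]
      refine ⟨(A ∩ P.1, (P.1.erase z \ A).card), ?_, ?_⟩
      · rw [Finset.mem_product, Finset.mem_powerset, Finset.mem_range]
        refine ⟨Finset.inter_subset_left, ?_⟩
        rw [hS₁] at hP
        have := (hPD P (Finset.mem_filter.mp hP).1).split
        simp only
        omega
      · rw [hR]
        exact Finset.mem_filter.mpr ⟨hP, rfl, rfl⟩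
    have hterm : ∀ D ∈ A.powerset ×ˢ range (n + 1), (R D).card ≤ M := by
      intro D _
      rw [hM]
      refine caseI_one hΔ hΔK hK n₀ z z' A n D.1 D.2 (R D) ?_
      intro P hP
      rw [hR] at hP
      obtain ⟨h1, h2, h3⟩ := Finset.mem_filter.mp hP
      rw [hS₁] at h1
      obtain ⟨h4, h5⟩ := Finset.mem_filter.mp h1
      exact ⟨hPD P h4, h2, h3, h5⟩
    have hsum := Finset.sum_le_card_nsmul (A.powerset ×ˢ range (n + 1))
      (fun D => (R D).card) M hterm
    rw [Finset.card_product, Finset.card_powerset, Finset.card_range, smul_eq_mul] at hsum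
    have hfin : 2 ^ A.card * (n + 1) * M ≤ 2 ^ (4 * n₀ + 4) * (4 * n₀ + 5) * M := by
      refine Nat.mul_le_mul_right _ (Nat.mul_le_mul ?_ (by omega))
      exact Nat.pow_le_pow_right (by norm_num) hbd.1
    exact le_trans (Finset.card_le_card hsub)
      (le_trans Finset.card_biUnion_le (le_trans hsum hfin))
  have hb2 : S₂.card ≤ (4 * n₀ + 5) * M := by
    by_cases hA : A = ∅
    · have : S₂ = ∅ := by
        rw [Finset.eq_empty_iff_forall_notMem]
        intro P hP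
        rw [hS₂] at hP
        obtain ⟨h1, _, h3⟩ := Finset.mem_filter.mp hP
        have pd := hPD P h1
        rw [hA, Finset.empty_union] at h3
        exact pd.ed (nodes_contra n₀ z z' P.1 P.2 pd.c1 pd.c2 pd.z2 h3
          (fun y hy => pd.dis y (Finset.mem_union_left _ hy)))
      rw [this, Finset.card_empty]
      exact Nat.zero_le _
    · have hAne := Finset.nonempty_iff_ne_empty.mpr hA
      obtain ⟨R, hR⟩ : ∃ R : ℕ → Finset (Finset (PX V K) × Finset (PX V K)),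
          R = fun i => S₂.filter (fun P => (P.1 ∩ P.2).card = i) := ⟨_, rfl⟩
      have hsub : S₂ ⊆ (range (n + 1)).biUnion R := by
        intro P hP
        rw [Finset.mem_biUnion]
        refine ⟨(P.1 ∩ P.2).card, ?_, ?_⟩
        · rw [Finset.mem_range]
          rw [hS₂] at hP
          obtain ⟨h1, hA0, _⟩ := Finset.mem_filter.mp hP
          have pd := hPD P h1
          have hs := pd.split
          have h2 : P.1 ∩ P.2 ⊆ P.1.erase z \ A := by
            intro y hy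
            rw [Finset.mem_inter] at hy
            rw [Finset.mem_sdiff, Finset.mem_erase]
            refine ⟨⟨?_, hy.1⟩, ?_⟩
            · rintro rfl
              exact pd.z4 hy.2
            · intro hyA
              have : y ∈ A ∩ P.1 := Finset.mem_inter.mpr ⟨hyA, hy.1⟩
              rw [hA0] at this
              exact absurd this (Finset.notMem_empty _)
          have h3 := Finset.card_le_card h2
          omega
        · rw [hR]
          exact Finset.mem_filter.mpr ⟨hP, rfl⟩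
      have hterm : ∀ i ∈ range (n + 1), (R i).card ≤ M := by
        intro i _
        rw [hM]
        refine caseII_one hΔ hΔK hK n₀ z z' A hAne n i (R i) ?_
        intro P hP
        rw [hR] at hP
        obtain ⟨h1, h2⟩ := Finset.mem_filter.mp hP
        rw [hS₂] at h1
        obtain ⟨h4, h5⟩ := Finset.mem_filter.mp h1
        exact ⟨hPD P h4, h2, h5⟩
      have hsum := Finset.sum_le_card_nsmul (range (n + 1)) (fun i => (R i).card) M hterm
      rw [Finset.card_range, smul_eq_mul] at hsum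
      have hfin : (n + 1) * M ≤ (4 * n₀ + 5) * M := Nat.mul_le_mul_right _ (by omega)
      exact le_trans (Finset.card_le_card hsub)
        (le_trans Finset.card_biUnion_le (le_trans hsum hfin))
  refine le_trans (Finset.card_le_card hS12) (le_trans (Finset.card_union_le _ _) ?_)
  refine le_trans (Nat.add_le_add hb1 hb2) ?_
  rw [← Nat.add_mul, hM]
  unfold c4
  rw [← mul_assoc]

end Pool.Agent.H95.ACS
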