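import Mathlib

/-!
# ACS-WALK: number of walks with prescribed vertices; number of covered positions
-/

set_option autoImplicit false

open Finset
open scoped Classical

namespace Pool.Agent.H95.ACS

variable {V : Type} [Fintype V] [DecidableEq V]

/-- walks `v 0, ..., v (m-1)` with prescribed sets of vertices at the positions with property `P` -/
noncomputable def Wk (G : SimpleGraph V) (P : ℕ → Prop) (F : ℕ → Finset V) (m : ℕ) :
    Finset (Fin m → V) :=
  univ.filter (fun v => (∀ i : Fin m, P i → v i ∈ F i) ∧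
    ∀ (i : Fin m) (h : (i : ℕ) + 1 < m), G.Adj (v i) (v ⟨i + 1, h⟩))

theorem walk_count (G : SimpleGraph V) (Δ : ℕ)
    (hΔ : ∀ v, (univ.filter (fun u => G.Adj v u)).card ≤ Δ) (P : ℕ → Prop) (h0 : P 0)
    (F : ℕ → Finset V) (f : ℕ → ℕ) (hF : ∀ i, P i → (F i).card ≤ f i) (m : ℕ) :
    (Wk G P F m).card ≤ ∏ i ∈ range m, (if P i then f i else Δ) := by
  induction m with
  | zero =>
    have : (Wk G P F 0).card ≤ (univ : Finset (Fin 0 → V)).card := Finset.card_le_univ _
    simpa using this
  | succ m ih =>
    rw [Finset.prod_range_succ, mul_comm]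
    have hmaps : ∀ v ∈ Wk G P F (m + 1), (fun i : Fin m => v i.castSucc) ∈ Wk G P F m := by
      intro v hv
      unfold Wk at hv ⊢
      rw [Finset.mem_filter] at hv ⊢
      refine ⟨Finset.mem_univ _, ?_, ?_⟩
      · intro i hi
        have := hv.2.1 i.castSucc
        rw [Fin.val_castSucc] at this
        exact this hi
      · intro i h
        have := hv.2.2 i.castSucc (by rw [Fin.val_castSucc]; omega)
        exact this
    refine le_trans (Finset.card_le_mul_card_image_of_maps_to
      (f := fun v : Fin (m + 1) → V => fun i : Fin m => v i.castSucc) hmaps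
      (if P m then f m else Δ) ?_) (Nat.mul_le_mul_left _ ih)
    intro u _
    have hinj : ∀ T : Finset V, (∀ v ∈ (Wk G P F (m + 1)).filter
        (fun v => (fun i : Fin m => v i.castSucc) = u), v (Fin.last m) ∈ T) →
        ((Wk G P F (m + 1)).filter (fun v => (fun i : Fin m => v i.castSucc) = u)).card ≤
          T.card := by
      intro T hT
      refine Finset.card_le_card_of_injOn (fun v => v (Fin.last m)) hT ?_
      intro v hv v' hv' he
      have h1 := (Finset.mem_filter.mp (Finset.mem_coe.mp hv)).2
      have h2 := (Finset.mem_filter.mp (Finset.mem_coe.mp hv')).2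
      funext i
      refine Fin.lastCases ?_ ?_ i
      · exact he
      · intro j
        have := congrFun (h1.trans h2.symm) j
        exact this
    by_cases hP : P m
    · rw [if_pos hP]
      refine le_trans (hinj (F m) ?_) (hF m hP)
      intro v hv
      have h1 := (Finset.mem_filter.mp hv).1
      unfold Wk at h1
      have h2 := (Finset.mem_filter.mp h1).2.1 (Fin.last m)
      rw [Fin.val_last] at h2
      exact h2 hP
    · rw [if_neg hP]
      have hm : m ≠ 0 := by
        intro hm
        subst hm
        exact hP h0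
      obtain ⟨m', rfl⟩ := Nat.exists_eq_succ_of_ne_zero hm
      refine le_trans (hinj (univ.filter (fun a => G.Adj (u (Fin.last m')) a)) ?_)
        (hΔ (u (Fin.last m')))
      intro v hv
      have h1 := (Finset.mem_filter.mp hv).1
      have h3 := (Finset.mem_filter.mp hv).2
      unfold Wk at h1
      have h2 := (Finset.mem_filter.mp h1).2.2 (Fin.last m').castSucc
        (by rw [Fin.val_castSucc, Fin.val_last]; omega)
      rw [Finset.mem_filter]
      refine ⟨Finset.mem_univ _, ?_⟩
      rw [← h3]
      have e : (⟨((Fin.last m').castSucc : Fin (m' + 1 + 1)) + 1, by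
          rw [Fin.val_castSucc, Fin.val_last]; omega⟩ : Fin (m' + 1 + 1)) =
          Fin.last (m' + 1) := by
        apply Fin.ext
        simp
      rw [e] at h2
      exact h2

/-- product bound -/
theorem prod_bound (Δ N : ℕ) (P : Finset ℕ) (hP : P ⊆ range N) (f : ℕ → ℕ)
    (hf : ∀ i ∈ P, f i ≤ 2) :
    ∏ i ∈ range N, (if i ∈ P then f i else Δ) ≤ 2 ^ N * Δ ^ (N - P.card) := by
  rw [Finset.prod_ite]
  have e1 : (range N).filter (fun i => i ∈ P) = P := by
    ext i
    simp only [Finset.mem_filter]
    exact ⟨fun h => h.2, fun h => ⟨hP h, h⟩⟩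
  have e2 : ((range N).filter (fun i => i ∉ P)).card = N - P.card := by
    have : (range N).filter (fun i => i ∉ P) = range N \ P := by
      ext i
      simp [Finset.mem_sdiff]
    rw [this, Finset.card_sdiff_of_subset hP, Finset.card_range]
  rw [e1, Finset.prod_const, e2]
  refine Nat.mul_le_mul_right _ ?_
  refine le_trans (Finset.prod_le_pow_card P f 2 hf) ?_
  refine Nat.pow_le_pow_right (by norm_num) ?_
  have := Finset.card_le_card hP
  rwa [Finset.card_range] at this

/-- positions covered by the edges at positions `J` and the edge at position `0` in a cycle of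
length `N` -/
def cov (N : ℕ) (J : Finset ℕ) : Finset ℕ :=
  (range N).filter (fun i => i = 0 ∨ i = 1 ∨ i ∈ J ∨ (1 ≤ i ∧ i - 1 ∈ J))

theorem cov_all (N : ℕ) (J : Finset ℕ) (hJ : J ⊆ Finset.Ico 1 N) (hN : 2 ≤ N) :
    J.card + 1 ≤ (cov N J).card := by
  have h1 : insert 0 J ⊆ cov N J := by
    intro i hi
    rw [Finset.mem_insert] at hi
    unfold cov
    rw [Finset.mem_filter, Finset.mem_range]
    rcases hi with rfl | hi
    · exact ⟨by omega, Or.inl rfl⟩
    · exact ⟨(Finset.mem_Ico.mp (hJ hi)).2, Or.inr (Or.inr (Or.inl hi))⟩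
  have h2 : 0 ∉ J := fun h => by
    have := (Finset.mem_Ico.mp (hJ h)).1
    omega
  have := Finset.card_le_card h1
  rwa [Finset.card_insert_of_notMem h2] at this

theorem cov_two (N : ℕ) (J : Finset ℕ) (hJ : J ⊆ Finset.Ico 1 N) (hN : 2 ≤ N)
    (hne : J.card + 1 < N) : J.card + 2 ≤ (cov N J).card := by
  have hex : ∃ i, 1 ≤ i ∧ i < N ∧ i ∉ J := by
    by_contra hcon
    push Not at hcon
    have : Finset.Ico 1 N ⊆ J := by
      intro i hi
      rw [Finset.mem_Ico] at hi
      exact hcon i hi.1 hi.2
    have := Finset.card_le_card this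
    rw [Nat.card_Ico] at this
    omega
  have hspec := Nat.find_spec hex
  set i₀ := Nat.find hex with hi₀
  have hmin : ∀ j, 1 ≤ j → j < i₀ → j ∈ J := by
    intro j hj1 hj2
    by_contra hj
    exact Nat.find_min hex hj2 ⟨hj1, by omega, hj⟩
  have h1 : insert i₀ (insert 0 J) ⊆ cov N J := by
    intro i hi
    rw [Finset.mem_insert, Finset.mem_insert] at hi
    unfold cov
    rw [Finset.mem_filter, Finset.mem_range]
    rcases hi with rfl | rfl | hi
    · refine ⟨hspec.2.1, ?_⟩
      by_cases h : i₀ = 1
      · exact Or.inr (Or.inl h)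
      · refine Or.inr (Or.inr (Or.inr ⟨hspec.1, hmin _ (by omega) (by omega)⟩))
    · exact ⟨by omega, Or.inl rfl⟩
    · exact ⟨(Finset.mem_Ico.mp (hJ hi)).2, Or.inr (Or.inr (Or.inl hi))⟩
  have h2 : 0 ∉ J := fun h => by
    have := (Finset.mem_Ico.mp (hJ h)).1
    omega
  have h3 : i₀ ∉ insert 0 J := by
    rw [Finset.mem_insert]
    rintro (h | h)
    · omega
    · exact hspec.2.2 h
  have := Finset.card_le_card h1
  rw [Finset.card_insert_of_notMem h3, Finset.card_insert_of_notMem h2] at this
  omega

theorem cov_three (N : ℕ) (J : Finset ℕ) (hJ : J ⊆ Finset.Ico 1 N) (hN : 4 ≤ N)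
    (hNe : N % 2 = 0) (hne : J.Nonempty) (hev : ∀ j ∈ J, j % 2 = 0) :
    J.card + 3 ≤ (cov N J).card := by
  set M := J.max' hne with hM
  have hMJ : M ∈ J := Finset.max'_mem J hne
  have hM1 := Finset.mem_Ico.mp (hJ hMJ)
  have hM2 := hev M hMJ
  have h1 : insert (M + 1) (insert 1 (insert 0 J)) ⊆ cov N J := by
    intro i hi
    rw [Finset.mem_insert, Finset.mem_insert, Finset.mem_insert] at hi
    unfold cov
    rw [Finset.mem_filter, Finset.mem_range]
    rcases hi with rfl | rfl | rfl | hi
    · refine ⟨by omega, Or.inr (Or.inr (Or.inr ⟨by omega, ?_⟩))⟩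
      simpa using hMJ
    · exact ⟨by omega, Or.inr (Or.inl rfl)⟩
    · exact ⟨by omega, Or.inl rfl⟩
    · exact ⟨(Finset.mem_Ico.mp (hJ hi)).2, Or.inr (Or.inr (Or.inl hi))⟩
  have h2 : 0 ∉ J := fun h => by
    have := (Finset.mem_Ico.mp (hJ h)).1
    omega
  have h3 : 1 ∉ insert 0 J := by
    rw [Finset.mem_insert]
    rintro (h | h)
    · omega
    · have := hev 1 h
      omega
  have h4 : M + 1 ∉ insert 1 (insert 0 J) := by
    rw [Finset.mem_insert, Finset.mem_insert]
    rintro (h | h | h)
    · omega
    · omega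
    · have := Finset.le_max' J _ h
      omega
  have := Finset.card_le_card h1
  rw [Finset.card_insert_of_notMem h4, Finset.card_insert_of_notMem h3,
    Finset.card_insert_of_notMem h2] at this
  omega

end Pool.Agent.H95.ACS
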