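import Pool.Agent.H95.ACS.Rot
import Pool.Agent.H95.ACS.Walk

/-!
# ACS-CNT: numbers of alternating cycles with prescribed pairs
-/

set_option autoImplicit false

open Finset
open scoped Classical

namespace Pool.Agent.H95.ACS

open Pool.Agent.H77.AC

variable {V : Type} [Fintype V] [DecidableEq V] {K : ℕ}

/-- parameters of the cycles of length `2 n + 4` through `(s(p,q), b)` -/
noncomputable def Par (G : SimpleGraph V) (n : ℕ) (p q : V) (b : Fin K) :
    Finset ((Fin (2 * n + 4) → V) × Fin K) :=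
  univ.filter (fun P => Function.Injective P.1 ∧ (∀ i, G.Adj (P.1 i) (P.1 (i + 1))) ∧
    b ≠ P.2 ∧ P.1 0 = p ∧ P.1 1 = q)

theorem card_le_par (G : SimpleGraph V) (n : ℕ) (p q : V) (b : Fin K)
    (Φ : Finset (PX V K) → Prop)
    [DecidablePred (fun H : Finset (PX V K) => IsCyc G n H ∧ (s(p, q), b) ∈ H ∧ Φ H)]
    [DecidablePred (fun P : (Fin (2 * n + 4) → V) × Fin K =>
      Φ (univ.image (cstep P.1 b P.2)))] :
    (univ.filter (fun H : Finset (PX V K) => IsCyc G n H ∧ (s(p, q), b) ∈ H ∧ Φ H)).card ≤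
      ((Par G n p q b).filter (fun P => Φ (univ.image (cstep P.1 b P.2)))).card := by
  refine le_trans (Finset.card_le_card ?_) (Finset.card_image_le
    (s := (Par G n p q b).filter (fun P => Φ (univ.image (cstep P.1 b P.2))))
    (f := fun P : (Fin (2 * n + 4) → V) × Fin K => univ.image (cstep P.1 b P.2)))
  intro H hH
  obtain ⟨_, h1, h2, h3⟩ := Finset.mem_filter.mp hH
  obtain ⟨v, c, hv, hadj, hbc, hp, hq, rfl⟩ := cyc_param G n H h1 p q b h2
  rw [Finset.mem_image]
  refine ⟨(v, c), ?_, rfl⟩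
  rw [Finset.mem_filter]
  refine ⟨?_, h3⟩
  unfold Par
  rw [Finset.mem_filter]
  exact ⟨Finset.mem_univ _, hv, hadj, hbc, hp, hq⟩

theorem par_mem_wk (G : SimpleGraph V) (n : ℕ) (p q : V) (b : Fin K)
    (P : (Fin (2 * n + 4) → V) × Fin K) (hP : P ∈ Par G n p q b) (T : ℕ → Prop)
    (F : ℕ → Finset V) (hF : ∀ i : Fin (2 * n + 4), T i → P.1 i ∈ F i) :
    P.1 ∈ Wk G T F (2 * n + 4) := by
  unfold Par at hP
  obtain ⟨_, _, hadj, _, _, _⟩ := Finset.mem_filter.mp hP
  unfold Wk
  rw [Finset.mem_filter]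
  refine ⟨Finset.mem_univ _, hF, ?_⟩
  intro i h
  have e : (⟨(i : ℕ) + 1, h⟩ : Fin (2 * n + 4)) = i + 1 := by
    apply Fin.ext
    rw [Fin.val_add, val_one_fin, Nat.mod_eq_of_lt h]
  rw [e]
  exact hadj i

/-- general bound -/
theorem par_bound (G : SimpleGraph V) (Δ : ℕ)
    (hΔ : ∀ v, (univ.filter (fun u => G.Adj v u)).card ≤ Δ) (n : ℕ) (p q : V) (b : Fin K)
    (Φ : (Fin (2 * n + 4) → V) × Fin K → Prop) [DecidablePred Φ] (P : Finset ℕ)
    (hP : P ⊆ range (2 * n + 4)) (h0 : 0 ∈ P) (F : ℕ → Finset V) (hF : ∀ i ∈ P, (F i).card ≤ 2) (Cc : Finset (Fin K))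
    (h1 : ∀ Q ∈ Par G n p q b, Φ Q → (∀ i : Fin (2 * n + 4), (i : ℕ) ∈ P → Q.1 i ∈ F i) ∧
      Q.2 ∈ Cc) :
    ((Par G n p q b).filter Φ).card ≤
      2 ^ (2 * n + 4) * Δ ^ (2 * n + 4 - P.card) * Cc.card := by
  have hsub : (Par G n p q b).filter Φ ⊆ Wk G (fun i => i ∈ P) F (2 * n + 4) ×ˢ Cc := by
    intro Q hQ
    obtain ⟨hQ1, hQ2⟩ := Finset.mem_filter.mp hQ
    obtain ⟨h2, h3⟩ := h1 Q hQ1 hQ2
    rw [Finset.mem_product]
    exact ⟨par_mem_wk G n p q b Q hQ1 (fun i => i ∈ P) F h2, h3⟩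
  refine le_trans (Finset.card_le_card hsub) ?_
  rw [Finset.card_product]
  refine Nat.mul_le_mul_right _ ?_
  refine le_trans (walk_count G Δ hΔ (fun i => i ∈ P) h0 F (fun _ => 2) hF _) ?_
  refine le_trans (le_of_eq ?_)
    (prod_bound Δ (2 * n + 4) P hP (fun _ => 2) (fun _ _ => le_rfl))
  refine Finset.prod_congr rfl (fun i _ => ?_)
  by_cases hi : i ∈ P
  · rw [if_pos hi, if_pos hi]
  · rw [if_neg hi, if_neg hi]

/-- sharp number of cycles through a pair -/
theorem cyc_sharp (G : SimpleGraph V) (Δ : ℕ)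
    (hΔ : ∀ v, (univ.filter (fun u => G.Adj v u)).card ≤ Δ) (n : ℕ) (x : PX V K) :
    (univ.filter (fun H : Finset (PX V K) => IsCyc G n H ∧ x ∈ H)).card ≤
      K * Δ ^ (2 * n + 2) := by
  obtain ⟨e, b⟩ := x
  induction e using Sym2.ind with
  | h p q =>
  have h1 := card_le_par G n p q b (fun _ => True)
  simp only [and_true, Finset.filter_true] at h1
  refine le_trans h1 ?_
  set F : ℕ → Finset V := fun i => if i = 0 then {p} else {q} with hF
  have hsub : Par G n p q b ⊆ Wk G (fun i => i = 0 ∨ i = 1) F (2 * n + 4) ×ˢ univ := by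
    intro Q hQ
    rw [Finset.mem_product]
    refine ⟨par_mem_wk G n p q b Q hQ _ F ?_, Finset.mem_univ _⟩
    unfold Par at hQ
    obtain ⟨_, _, _, _, hp, hq⟩ := Finset.mem_filter.mp hQ
    intro i hi
    rcases hi with hi | hi
    · have : i = 0 := Fin.ext hi
      subst this
      rw [hF]
      simp [hp]
    · have : i = 1 := Fin.ext (by rw [val_one_fin]; exact hi)
      subst this
      rw [hF]
      simp only [val_one_fin]
      simp [hq]
  refine le_trans (Finset.card_le_card hsub) ?_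
  rw [Finset.card_product, Finset.card_univ, Fintype.card_fin, mul_comm]
  refine Nat.mul_le_mul_left _ ?_
  refine le_trans (walk_count G Δ hΔ (fun i => i = 0 ∨ i = 1) (Or.inl rfl) F (fun _ => 1) ?_ _) ?_
  · intro i _
    rw [hF]
    simp only
    split_ifs <;> simp
  · have e : range (2 * n + 4) = insert 0 (insert 1 (Finset.Ico 2 (2 * n + 4))) := by
      ext i
      simp only [Finset.mem_range, Finset.mem_insert, Finset.mem_Ico]
      omega
    rw [e, Finset.prod_insert (by simp), Finset.prod_insert (by simp)]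
    simp only [true_or, or_true, if_true, one_mul]
    rw [Finset.prod_congr rfl (g := fun _ => Δ) (by
      intro i hi
      rw [Finset.mem_Ico] at hi
      rw [if_neg (by omega)])]
    rw [Finset.prod_const, Nat.card_Ico]
    exact le_of_eq (by congr 1)

theorem mem_sym_card (e : Sym2 V) (T : Finset V) (hT : ∀ u ∈ T, u ∈ e) : T.card ≤ 2 := by
  induction e using Sym2.ind with
  | h p q =>
  have : T ⊆ {p, q} := by
    intro u hu
    have := hT u hu
    rw [Sym2.mem_iff] at this
    simpa using this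
  exact le_trans (Finset.card_le_card this) (Finset.card_le_two)

/-- one assignment of positions -/
theorem pos_bound (G : SimpleGraph V) (Δ : ℕ)
    (hΔ : ∀ v, (univ.filter (fun u => G.Adj v u)).card ≤ Δ) (hΔK : Δ ≤ K) (hK : 0 < K) (n : ℕ)
    (p q : V) (b : Fin K) (T : Finset (PX V K)) (hx : (s(p, q), b) ∉ T) (hT : T.Nonempty)
    (pos : {t // t ∈ T} → Fin (2 * n + 4)) :
    ((Par G n p q b).filter (fun P => ∀ t, cstep P.1 b P.2 (pos t) = t.1)).card ≤
      2 ^ (2 * n + 4) * K ^ (2 * n + 4 - T.card - 2) := by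
  by_cases hem : ((Par G n p q b).filter (fun P => ∀ t, cstep P.1 b P.2 (pos t) = t.1)) = ∅
  · rw [hem, Finset.card_empty]
    exact Nat.zero_le _
  obtain ⟨Q₀, hQ₀⟩ := Finset.nonempty_iff_ne_empty.mpr hem
  obtain ⟨hQ1, hQ2⟩ := Finset.mem_filter.mp hQ₀
  have hinj : Function.Injective pos := by
    intro t t' he
    apply Subtype.ext
    rw [← hQ2 t, ← hQ2 t', he]
  have hne0 : ∀ t, (pos t : ℕ) ≠ 0 := by
    intro t ht
    have h0 : pos t = 0 := Fin.ext ht
    have h1 := hQ2 t
    rw [h0] at h1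
    unfold Par at hQ1
    obtain ⟨_, _, _, _, hp, hq⟩ := Finset.mem_filter.mp hQ1
    have h2 : cstep Q₀.1 b Q₀.2 0 = (s(p, q), b) := by
      unfold cstep
      simp [hp, hq]
    rw [h2] at h1
    exact hx (h1 ▸ t.2)
  set J : Finset ℕ := univ.image (fun t => (pos t : ℕ)) with hJ
  have hJsub : J ⊆ Finset.Ico 1 (2 * n + 4) := by
    intro j hj
    rw [hJ, Finset.mem_image] at hj
    obtain ⟨t, _, rfl⟩ := hj
    rw [Finset.mem_Ico]
    have := hne0 t
    have := (pos t).2
    omega
  have hJcard : J.card = T.card := by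
    rw [hJ, Finset.card_image_of_injective, Finset.card_univ, Fintype.card_coe]
    intro t t' he
    exact hinj (Fin.ext he)
  have hTN : T.card + 1 ≤ 2 * n + 4 := by
    have := Finset.card_le_card hJsub
    rw [hJcard, Nat.card_Ico] at this
    omega
  have hJne : J.Nonempty := by
    rw [← Finset.card_pos, hJcard]
    exact Finset.card_pos.mpr hT
  set F : ℕ → Finset V := fun i => univ.filter (fun u => (i = 0 → u = p) ∧ (i = 1 → u = q) ∧
    ∀ t, ((pos t : ℕ) = i ∨ (pos t : ℕ) + 1 = i) → u ∈ t.1.1) with hF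
  have hFc : ∀ i ∈ cov (2 * n + 4) J, (F i).card ≤ 2 := by
    intro i hi
    unfold cov at hi
    obtain ⟨_, hi⟩ := Finset.mem_filter.mp hi
    rcases hi with hi | hi | hi | ⟨h1, hi⟩
    · refine le_trans (Finset.card_le_card (t := {p}) ?_) (by simp)
      intro u hu
      rw [hF] at hu
      rw [Finset.mem_singleton]
      exact (Finset.mem_filter.mp hu).2.1 hi
    · refine le_trans (Finset.card_le_card (t := {q}) ?_) (by simp)
      intro u hu
      rw [hF] at hu
      rw [Finset.mem_singleton]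
      exact (Finset.mem_filter.mp hu).2.2.1 hi
    · rw [hJ, Finset.mem_image] at hi
      obtain ⟨t, _, ht⟩ := hi
      refine mem_sym_card t.1.1 _ ?_
      intro u hu
      rw [hF] at hu
      exact (Finset.mem_filter.mp hu).2.2.2 t (Or.inl ht)
    · rw [hJ, Finset.mem_image] at hi
      obtain ⟨t, _, ht⟩ := hi
      refine mem_sym_card t.1.1 _ ?_
      intro u hu
      rw [hF] at hu
      exact (Finset.mem_filter.mp hu).2.2.2 t (Or.inr (by omega))
  have hFmem : ∀ Q ∈ Par G n p q b, (∀ t, cstep Q.1 b Q.2 (pos t) = t.1) →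
      ∀ i : Fin (2 * n + 4), Q.1 i ∈ F i := by
    intro Q hQ hQt i
    unfold Par at hQ
    obtain ⟨_, _, _, _, hp, hq⟩ := Finset.mem_filter.mp hQ
    rw [hF]
    rw [Finset.mem_filter]
    refine ⟨Finset.mem_univ _, ?_, ?_, ?_⟩
    · intro h
      have : i = 0 := Fin.ext h
      rw [this]
      exact hp
    · intro h
      have : i = 1 := Fin.ext (by rw [val_one_fin]; exact h)
      rw [this]
      exact hq
    · intro t ht
      have h1 := congrArg Prod.fst (hQt t)
      rw [← h1]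
      unfold cstep
      rcases ht with ht | ht
      · have : pos t = i := Fin.ext ht
        rw [this]
        simp
      · have : pos t + 1 = i := by
          apply Fin.ext
          rw [Fin.val_add, val_one_fin, Nat.mod_eq_of_lt (by rw [ht]; exact i.2)]
          exact ht
        rw [← this]
        simp
  have h0P : 0 ∈ cov (2 * n + 4) J := by
    unfold cov
    rw [Finset.mem_filter, Finset.mem_range]
    exact ⟨by omega, Or.inl rfl⟩
  have hPsub : cov (2 * n + 4) J ⊆ range (2 * n + 4) := Finset.filter_subset _ _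
  have hPle := Finset.card_le_card hPsub
  rw [Finset.card_range] at hPle
  by_cases hodd : ∃ t, (pos t : ℕ) % 2 ≠ 0
  · obtain ⟨t, ht⟩ := hodd
    have hb := par_bound G Δ hΔ n p q b (fun P => ∀ t, cstep P.1 b P.2 (pos t) = t.1)
      (cov (2 * n + 4) J) hPsub h0P F hFc {t.1.2} (by
        intro Q hQ hQt
        refine ⟨fun i _ => hFmem Q hQ hQt i, ?_⟩
        rw [Finset.mem_singleton]
        have h1 := congrArg Prod.snd (hQt t)
        unfold cstep at h1
        simp only [if_neg ht] at h1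
        exact h1)
    rw [Finset.card_singleton, mul_one] at hb
    refine le_trans hb ?_
    refine Nat.mul_le_mul_left _ ?_
    refine le_trans (Nat.pow_le_pow_left hΔK _) ?_
    refine Nat.pow_le_pow_right hK ?_
    by_cases hall : T.card + 1 = 2 * n + 4
    · have := cov_all (2 * n + 4) J hJsub (by omega)
      omega
    · have := cov_two (2 * n + 4) J hJsub (by omega) (by omega)
      omega
  · push Not at hodd
    have hb := par_bound G Δ hΔ n p q b (fun P => ∀ t, cstep P.1 b P.2 (pos t) = t.1)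
      (cov (2 * n + 4) J) hPsub h0P F hFc univ (by
        intro Q hQ hQt
        exact ⟨fun i _ => hFmem Q hQ hQt i, Finset.mem_univ _⟩)
    rw [Finset.card_univ, Fintype.card_fin] at hb
    refine le_trans hb ?_
    rw [mul_assoc]
    refine Nat.mul_le_mul_left _ ?_
    have h3 := cov_three (2 * n + 4) J hJsub (by omega) (by omega) hJne (by
      intro j hj
      rw [hJ, Finset.mem_image] at hj
      obtain ⟨t, _, rfl⟩ := hj
      exact hodd t)
    have h4 : Δ ^ (2 * n + 4 - (cov (2 * n + 4) J).card) * K ≤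
        K ^ (2 * n + 4 - (cov (2 * n + 4) J).card + 1) := by
      rw [pow_succ]
      exact Nat.mul_le_mul_right _ (Nat.pow_le_pow_left hΔK _)
    refine le_trans h4 (Nat.pow_le_pow_right hK ?_)
    omega

/-- cycles of length `2 n + 4` through `x` containing the set `T` -/
theorem cyc_set (G : SimpleGraph V) (Δ : ℕ)
    (hΔ : ∀ v, (univ.filter (fun u => G.Adj v u)).card ≤ Δ) (hΔK : Δ ≤ K) (hK : 0 < K) (n : ℕ)
    (x : PX V K) (T : Finset (PX V K)) (hx : x ∉ T) (hT : T.Nonempty) :
    (univ.filter (fun H : Finset (PX V K) => IsCyc G n H ∧ x ∈ H ∧ T ⊆ H)).card ≤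
      ((2 * n + 4) ^ (2 * n + 4) * 2 ^ (2 * n + 5)) * K ^ (2 * n + 4 - T.card - 2) := by
  by_cases hem : (univ.filter (fun H : Finset (PX V K) => IsCyc G n H ∧ x ∈ H ∧ T ⊆ H)) = ∅
  · rw [hem, Finset.card_empty]
    exact Nat.zero_le _
  obtain ⟨H₀, hH₀⟩ := Finset.nonempty_iff_ne_empty.mpr hem
  obtain ⟨_, hc, _, hTH⟩ := Finset.mem_filter.mp hH₀
  have hTc : T.card ≤ 2 * n + 4 := by
    obtain ⟨v, b, c, hv, _, _, rfl⟩ := hc
    have := Finset.card_le_card hTH
    rwa [cyc_card v hv b c] at this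
  obtain ⟨e, b⟩ := x
  induction e using Sym2.ind with
  | h p q =>
  refine le_trans (card_le_par G n p q b (fun H => T ⊆ H)) ?_
  have hsub : (Par G n p q b).filter (fun P => T ⊆ univ.image (cstep P.1 b P.2)) ⊆
      (univ : Finset ({t // t ∈ T} → Fin (2 * n + 4))).biUnion (fun pos =>
        (Par G n p q b).filter (fun P => ∀ t, cstep P.1 b P.2 (pos t) = t.1)) := by
    intro Q hQ
    obtain ⟨hQ1, hQ2⟩ := Finset.mem_filter.mp hQ
    have : ∀ t : {t // t ∈ T}, ∃ j, cstep Q.1 b Q.2 j = t.1 := by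
      intro t
      have := hQ2 t.2
      rw [Finset.mem_image] at this
      obtain ⟨j, _, hj⟩ := this
      exact ⟨j, hj⟩
    choose pos hpos using this
    rw [Finset.mem_biUnion]
    exact ⟨pos, Finset.mem_univ _, Finset.mem_filter.mpr ⟨hQ1, hpos⟩⟩
  refine le_trans (Finset.card_le_card hsub) ?_
  refine le_trans Finset.card_biUnion_le ?_
  refine le_trans (Finset.sum_le_card_nsmul _ _ _
    (fun pos _ => pos_bound G Δ hΔ hΔK hK n p q b T hx hT pos)) ?_
  rw [Finset.card_univ, Fintype.card_fun, Fintype.card_fin, Fintype.card_coe, smul_eq_mul,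
    ← mul_assoc]
  refine Nat.mul_le_mul_right _ ?_
  refine Nat.mul_le_mul ?_ ?_
  · exact Nat.pow_le_pow_right (by omega) hTc
  · exact Nat.pow_le_pow_right (by norm_num) (by omega)

/-- cycles of length `2 n + 4` through `x` -/
theorem cyc_all (G : SimpleGraph V) (Δ : ℕ)
    (hΔ : ∀ v, (univ.filter (fun u => G.Adj v u)).card ≤ Δ) (hΔK : Δ ≤ K) (n : ℕ)
    (x : PX V K) :
    (univ.filter (fun H : Finset (PX V K) => IsCyc G n H ∧ x ∈ H)).card ≤
      K ^ (2 * n + 3) := by
  refine le_trans (cyc_sharp G Δ hΔ n x) ?_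
  calc K * Δ ^ (2 * n + 2) ≤ K * K ^ (2 * n + 2) :=
        Nat.mul_le_mul_left _ (Nat.pow_le_pow_left hΔK _)
    _ = K ^ (2 * n + 3) := by rw [mul_comm, ← pow_succ]

theorem F3_card (p q : V) (T : Finset V) (hT : T.card ≤ 2) (k i : ℕ)
    (F : ℕ → Finset V) (hF : F = fun i => if i = 0 then {p} else if i = 1 then {q} else T)
    (_ : i ∈ ({0, 1, k} : Finset ℕ)) : (F i).card ≤ 2 := by
  subst hF
  simp only
  split_ifs
  · simp
  · simp
  · exact hT

/-- one extra prescribed vertex -/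
theorem par_vertex (G : SimpleGraph V) (Δ : ℕ)
    (hΔ : ∀ v, (univ.filter (fun u => G.Adj v u)).card ≤ Δ) (hΔK : Δ ≤ K) (n : ℕ)
    (p q : V) (b : Fin K) (k : ℕ) (hk2 : 2 ≤ k) (hkN : k < 2 * n + 4) (T : Finset V)
    (hT : T.card ≤ 2) (Φ : (Fin (2 * n + 4) → V) × Fin K → Prop) [DecidablePred Φ]
    (h1 : ∀ Q ∈ Par G n p q b, Φ Q → ∀ i : Fin (2 * n + 4), (i : ℕ) = k → Q.1 i ∈ T) :
    ((Par G n p q b).filter Φ).card ≤ 2 ^ (2 * n + 4) * K ^ (2 * n + 2) := by
  set F : ℕ → Finset V := fun i => if i = 0 then {p} else if i = 1 then {q} else T with hF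
  have hc : ({0, 1, k} : Finset ℕ).card = 3 := by
    rw [Finset.card_insert_of_notMem, Finset.card_insert_of_notMem, Finset.card_singleton]
    · simp only [Finset.mem_singleton]; omega
    · simp only [Finset.mem_insert, Finset.mem_singleton]; omega
  have hb := par_bound G Δ hΔ n p q b Φ {0, 1, k} (by
      intro i hi
      simp only [Finset.mem_insert, Finset.mem_singleton] at hi
      rw [Finset.mem_range]
      omega) (by simp) F (fun i hi => F3_card p q T hT k i F hF hi) univ (by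
      intro Q hQ hΦ
      refine ⟨?_, Finset.mem_univ _⟩
      intro i hi
      have hQ' := hQ
      unfold Par at hQ'
      obtain ⟨_, _, _, _, hp, hq⟩ := Finset.mem_filter.mp hQ'
      simp only [Finset.mem_insert, Finset.mem_singleton] at hi
      rw [hF]
      simp only
      rcases hi with hi | hi | hi
      · have : i = 0 := Fin.ext hi
        subst this
        simp [hp]
      · have : i = 1 := Fin.ext (by rw [val_one_fin]; exact hi)
        subst this
        simp only [val_one_fin]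
        simp [hq]
      · rw [if_neg (by omega), if_neg (by omega)]
        exact h1 Q hQ hΦ i hi)
  rw [hc, Finset.card_univ, Fintype.card_fin, mul_assoc] at hb
  refine le_trans hb (Nat.mul_le_mul_left _ ?_)
  have e1 : 2 * n + 4 - 3 = 2 * n + 1 := by omega
  rw [e1]
  calc Δ ^ (2 * n + 1) * K ≤ K ^ (2 * n + 1) * K :=
        Nat.mul_le_mul_right _ (Nat.pow_le_pow_left hΔK _)
    _ = K ^ (2 * n + 2) := by rw [← pow_succ]

/-- one prescribed colour -/
theorem par_colour (G : SimpleGraph V) (Δ : ℕ)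
    (hΔ : ∀ v, (univ.filter (fun u => G.Adj v u)).card ≤ Δ) (hΔK : Δ ≤ K) (n : ℕ)
    (p q : V) (b d : Fin K) (Φ : (Fin (2 * n + 4) → V) × Fin K → Prop) [DecidablePred Φ]
    (h1 : ∀ Q ∈ Par G n p q b, Φ Q → Q.2 = d) :
    ((Par G n p q b).filter Φ).card ≤ 2 ^ (2 * n + 4) * K ^ (2 * n + 2) := by
  set F : ℕ → Finset V := fun i => if i = 0 then {p} else if i = 1 then {q} else ∅ with hF
  have hb := par_bound G Δ hΔ n p q b Φ {0, 1} (by
      intro i hi
      simp only [Finset.mem_insert, Finset.mem_singleton] at hi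
      rw [Finset.mem_range]
      omega) (by simp) F (fun i hi => F3_card p q ∅ (by simp) 1 i F hF (by
        simp only [Finset.mem_insert, Finset.mem_singleton] at hi ⊢
        omega)) {d} (by
      intro Q hQ hΦ
      refine ⟨?_, Finset.mem_singleton.mpr (h1 Q hQ hΦ)⟩
      intro i hi
      have hQ' := hQ
      unfold Par at hQ'
      obtain ⟨_, _, _, _, hp, hq⟩ := Finset.mem_filter.mp hQ'
      simp only [Finset.mem_insert, Finset.mem_singleton] at hi
      rw [hF]
      simp only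
      rcases hi with hi | hi
      · have : i = 0 := Fin.ext hi
        subst this
        simp [hp]
      · have : i = 1 := Fin.ext (by rw [val_one_fin]; exact hi)
        subst this
        simp only [val_one_fin]
        simp [hq])
  have hc : ({0, 1} : Finset ℕ).card = 2 := by simp
  rw [hc, Finset.card_singleton, mul_one] at hb
  refine le_trans hb (Nat.mul_le_mul_left _ ?_)
  have e1 : 2 * n + 4 - 2 = 2 * n + 2 := by omega
  rw [e1]
  exact Nat.pow_le_pow_left hΔK _

/-- another element at a node -/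
def NodeP (x : PX V K) (u : V) (d : Fin K) (H : Finset (PX V K)) : Prop :=
  ∃ y ∈ H, y ≠ x ∧ u ∈ y.1 ∧ d = y.2

/-- another element on an edge -/
def EdgeP (x : PX V K) (f : Sym2 V) (H : Finset (PX V K)) : Prop :=
  ∃ y ∈ H, y ≠ x ∧ y.1 = f

/-- cycles through `x` with another element at a node -/
theorem cyc_at_node (G : SimpleGraph V) (Δ : ℕ)
    (hΔ : ∀ v, (univ.filter (fun u => G.Adj v u)).card ≤ Δ) (hΔK : Δ ≤ K) (n : ℕ)
    (x : PX V K) (u : V) (d : Fin K) :
    (univ.filter (fun H : Finset (PX V K) => IsCyc G n H ∧ x ∈ H ∧ NodeP x u d H)).card ≤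
      ((2 * n + 4) ^ (2 * n + 4) * 2 ^ (2 * n + 5)) * K ^ (2 * n + 2) := by
  obtain ⟨e, b⟩ := x
  induction e using Sym2.ind with
  | h p q =>
  refine le_trans (card_le_par G n p q b (fun H => NodeP (s(p, q), b) u d H)) ?_
  obtain ⟨A, hA⟩ : ∃ A : Fin (2 * n + 4) → Finset ((Fin (2 * n + 4) → V) × Fin K),
      A = fun j : Fin (2 * n + 4) => (Par G n p q b).filter (fun P => (j : ℕ) ≠ 0 ∧ (j : ℕ) % 2 ≠ 0 ∧ P.2 = d) ∪
        ((Par G n p q b).filter (fun P => (j : ℕ) ≠ 0 ∧ (j : ℕ) % 2 = 0 ∧ P.1 j = u) ∪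
        (Par G n p q b).filter (fun P => (j : ℕ) ≠ 0 ∧ (j : ℕ) % 2 = 0 ∧ P.1 (j + 1) = u)) :=
    ⟨_, rfl⟩
  have hsub : (Par G n p q b).filter (fun P => NodeP (s(p, q), b) u d
      (univ.image (cstep P.1 b P.2))) ⊆ (univ : Finset (Fin (2 * n + 4))).biUnion A := by
    intro Q hQ
    obtain ⟨hQ1, y, hy, hyx, huy, hdy⟩ := Finset.mem_filter.mp hQ
    rw [Finset.mem_image] at hy
    obtain ⟨j, _, rfl⟩ := hy
    have hQ' := hQ1
    unfold Par at hQ'
    obtain ⟨_, _, _, _, hp, hq⟩ := Finset.mem_filter.mp hQ'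
    have hj0 : (j : ℕ) ≠ 0 := by
      intro h
      have : j = 0 := Fin.ext h
      subst this
      apply hyx
      unfold cstep
      simp [hp, hq]
    rw [Finset.mem_biUnion]
    refine ⟨j, Finset.mem_univ _, ?_⟩
    rw [hA]
    by_cases hpar : (j : ℕ) % 2 = 0
    · unfold cstep at huy
      simp only [Sym2.mem_iff] at huy
      rw [Finset.mem_union, Finset.mem_union]
      rcases huy with h | h
      · exact Or.inr (Or.inl (Finset.mem_filter.mpr ⟨hQ1, hj0, hpar, h.symm⟩))
      · exact Or.inr (Or.inr (Finset.mem_filter.mpr ⟨hQ1, hj0, hpar, h.symm⟩))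
    · unfold cstep at hdy
      simp only [if_neg hpar] at hdy
      rw [Finset.mem_union]
      exact Or.inl (Finset.mem_filter.mpr ⟨hQ1, hj0, hpar, hdy.symm⟩)
  refine le_trans (Finset.card_le_card hsub) ?_
  refine le_trans Finset.card_biUnion_le ?_
  have hterm : ∀ j ∈ (univ : Finset (Fin (2 * n + 4))),
      (A j).card ≤ 3 * (2 ^ (2 * n + 4) * K ^ (2 * n + 2)) := by
    intro j _
    have c1 := par_colour G Δ hΔ hΔK n p q b d
      (fun P => (j : ℕ) ≠ 0 ∧ (j : ℕ) % 2 ≠ 0 ∧ P.2 = d) (fun Q _ h => h.2.2)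
    have c2 : ((Par G n p q b).filter
        (fun P => (j : ℕ) ≠ 0 ∧ (j : ℕ) % 2 = 0 ∧ P.1 j = u)).card ≤
        2 ^ (2 * n + 4) * K ^ (2 * n + 2) := by
      by_cases hj : (j : ℕ) ≠ 0 ∧ (j : ℕ) % 2 = 0
      · refine par_vertex G Δ hΔ hΔK n p q b (j : ℕ) (by omega) j.2 {u} (by simp) _ ?_
        intro Q _ h i hi
        have : i = j := Fin.ext hi
        subst this
        rw [h.2.2]
        simp
      · rw [Finset.filter_eq_empty_iff.mpr (by
          intro Q _ h
          exact hj ⟨h.1, h.2.1⟩), Finset.card_empty]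
        exact Nat.zero_le _
    have c3 : ((Par G n p q b).filter
        (fun P => (j : ℕ) ≠ 0 ∧ (j : ℕ) % 2 = 0 ∧ P.1 (j + 1) = u)).card ≤
        2 ^ (2 * n + 4) * K ^ (2 * n + 2) := by
      by_cases hj : (j : ℕ) ≠ 0 ∧ (j : ℕ) % 2 = 0
      · have hjN := j.2
        refine par_vertex G Δ hΔ hΔK n p q b ((j : ℕ) + 1) (by omega) (by omega) {u}
          (by simp) _ ?_
        intro Q _ h i hi
        have : i = j + 1 := by
          apply Fin.ext
          rw [Fin.val_add, val_one_fin, Nat.mod_eq_of_lt (by omega)]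
          exact hi
        subst this
        rw [h.2.2]
        simp
      · rw [Finset.filter_eq_empty_iff.mpr (by
          intro Q _ h
          exact hj ⟨h.1, h.2.1⟩), Finset.card_empty]
        exact Nat.zero_le _
    have c4 := Finset.card_union_le
      ((Par G n p q b).filter (fun P => (j : ℕ) ≠ 0 ∧ (j : ℕ) % 2 = 0 ∧ P.1 j = u))
      ((Par G n p q b).filter (fun P => (j : ℕ) ≠ 0 ∧ (j : ℕ) % 2 = 0 ∧ P.1 (j + 1) = u))
    rw [hA]
    refine le_trans (Finset.card_union_le _ _) ?_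
    omega
  refine le_trans (Finset.sum_le_card_nsmul _ _ _ hterm) ?_
  rw [Finset.card_univ, Fintype.card_fin, smul_eq_mul]
  have e1 : (2 * n + 4) * (3 * (2 ^ (2 * n + 4) * K ^ (2 * n + 2))) =
      (3 * (2 * n + 4)) * 2 ^ (2 * n + 4) * K ^ (2 * n + 2) := by ring
  have e2 : (2 * n + 4) ^ (2 * n + 4) * 2 ^ (2 * n + 5) =
      (2 * (2 * n + 4) ^ (2 * n + 4)) * 2 ^ (2 * n + 4) := by
    rw [show 2 * n + 5 = (2 * n + 4) + 1 by omega, pow_succ 2]
    ring
  rw [e1, e2]
  refine Nat.mul_le_mul_right _ (Nat.mul_le_mul_right _ ?_)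
  have e3 : (2 * n + 4) ^ 2 ≤ (2 * n + 4) ^ (2 * n + 4) :=
    Nat.pow_le_pow_right (by omega) (by omega)
  nlinarith

/-- cycles through `x` with another element on an edge -/
theorem cyc_on_edge (G : SimpleGraph V) (Δ : ℕ)
    (hΔ : ∀ v, (univ.filter (fun u => G.Adj v u)).card ≤ Δ) (hΔK : Δ ≤ K) (n : ℕ)
    (x : PX V K) (f : Sym2 V) :
    (univ.filter (fun H : Finset (PX V K) => IsCyc G n H ∧ x ∈ H ∧ EdgeP x f H)).card ≤
      ((2 * n + 4) ^ (2 * n + 4) * 2 ^ (2 * n + 5)) * K ^ (2 * n + 2) := by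
  obtain ⟨e, b⟩ := x
  induction e using Sym2.ind with
  | h p q =>
  refine le_trans (card_le_par G n p q b (fun H => EdgeP (s(p, q), b) f H)) ?_
  obtain ⟨A, hA⟩ : ∃ A : Fin (2 * n + 4) → Finset ((Fin (2 * n + 4) → V) × Fin K),
      A = fun j : Fin (2 * n + 4) => (Par G n p q b).filter
        (fun P => (j : ℕ) ≠ 0 ∧ s(P.1 j, P.1 (j + 1)) = f) := ⟨_, rfl⟩
  have hsub : (Par G n p q b).filter (fun P => EdgeP (s(p, q), b) f
      (univ.image (cstep P.1 b P.2))) ⊆ (univ : Finset (Fin (2 * n + 4))).biUnion A := by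
    intro Q hQ
    obtain ⟨hQ1, y, hy, hyx, hyf⟩ := Finset.mem_filter.mp hQ
    rw [Finset.mem_image] at hy
    obtain ⟨j, _, rfl⟩ := hy
    have hQ' := hQ1
    unfold Par at hQ'
    obtain ⟨_, _, _, _, hp, hq⟩ := Finset.mem_filter.mp hQ'
    have hj0 : (j : ℕ) ≠ 0 := by
      intro h
      have : j = 0 := Fin.ext h
      subst this
      apply hyx
      unfold cstep
      simp [hp, hq]
    rw [Finset.mem_biUnion]
    refine ⟨j, Finset.mem_univ _, ?_⟩
    rw [hA]
    exact Finset.mem_filter.mpr ⟨hQ1, hj0, hyf⟩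
  refine le_trans (Finset.card_le_card hsub) ?_
  refine le_trans Finset.card_biUnion_le ?_
  have hT : (univ.filter (fun u : V => u ∈ f)).card ≤ 2 :=
    mem_sym_card f _ (fun u hu => (Finset.mem_filter.mp hu).2)
  have hterm : ∀ j ∈ (univ : Finset (Fin (2 * n + 4))),
      (A j).card ≤ 2 ^ (2 * n + 4) * K ^ (2 * n + 2) := by
    intro j _
    rw [hA]
    by_cases hj0 : (j : ℕ) = 0
    · simp only
      rw [Finset.filter_eq_empty_iff.mpr (by
        intro Q _ h
        exact h.1 hj0), Finset.card_empty]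
      exact Nat.zero_le _
    by_cases hj1 : (j : ℕ) = 1
    · refine par_vertex G Δ hΔ hΔK n p q b 2 le_rfl (by omega) _ hT _ ?_
      intro Q _ h i hi
      have : i = j + 1 := by
        apply Fin.ext
        rw [Fin.val_add, val_one_fin, Nat.mod_eq_of_lt (by omega)]
        omega
      subst this
      rw [Finset.mem_filter]
      refine ⟨Finset.mem_univ _, ?_⟩
      rw [← h.2]
      simp
    · refine par_vertex G Δ hΔ hΔK n p q b (j : ℕ) (by omega) j.2 _ hT _ ?_
      intro Q _ h i hi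
      have : i = j := Fin.ext hi
      subst this
      rw [Finset.mem_filter]
      refine ⟨Finset.mem_univ _, ?_⟩
      rw [← h.2]
      simp
  refine le_trans (Finset.sum_le_card_nsmul _ _ _ hterm) ?_
  rw [Finset.card_univ, Fintype.card_fin, smul_eq_mul, ← mul_assoc]
  refine Nat.mul_le_mul_right _ ?_
  refine Nat.mul_le_mul ?_ ?_
  · calc 2 * n + 4 = (2 * n + 4) ^ 1 := (pow_one _).symm
      _ ≤ (2 * n + 4) ^ (2 * n + 4) := Nat.pow_le_pow_right (by omega) (by omega)
  · exact Nat.pow_le_pow_right (by norm_num) (by omega)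

end Pool.Agent.H95.ACS
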