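import Pool.Agent.H95.ACS.Cnt

/-!
# ACS-FAM: the crude families in the initial state
-/

set_option autoImplicit false

open Finset
open scoped Classical

namespace Pool.Agent.H95.ACS

open Pool.Agent.H77.AC

variable {V : Type} [Fintype V] [DecidableEq V] {K : ℕ}

/-- the constant -/
def cc (n₀ : ℕ) : ℕ := (2 * n₀ + 4) ^ (2 * n₀ + 4) * 2 ^ (2 * n₀ + 5)

theorem cc_pos (n₀ : ℕ) : 1 ≤ cc n₀ := by
  unfold cc
  exact Nat.mul_pos (Nat.pow_pos (by omega)) (Nat.pow_pos (by norm_num))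

theorem cc_mono (n n₀ : ℕ) (h : n ≤ n₀) :
    (2 * n + 4) ^ (2 * n + 4) * 2 ^ (2 * n + 5) ≤ cc n₀ := by
  unfold cc
  refine Nat.mul_le_mul ?_ ?_
  · calc (2 * n + 4) ^ (2 * n + 4) ≤ (2 * n₀ + 4) ^ (2 * n + 4) :=
        Nat.pow_le_pow_left (by omega) _
      _ ≤ (2 * n₀ + 4) ^ (2 * n₀ + 4) := Nat.pow_le_pow_right (by omega) (by omega)
  · exact Nat.pow_le_pow_right (by norm_num) (by omega)

theorem isCyc_card (G : SimpleGraph V) (n : ℕ) (H : Finset (PX V K)) (h : IsCyc G n H) :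
    H.card = 2 * n + 4 := by
  obtain ⟨v, b, c, hv, _, _, rfl⟩ := h
  exact cyc_card v hv b c

/-- reduction to one length -/
theorem lenfix (G : SimpleGraph V) (n₀ : ℕ) (Φ : Finset (PX V K) → Prop) (k M : ℕ)
    (h : ∀ n < n₀, 2 * n + 4 = k → ∀ S' : Finset (Finset (PX V K)),
      (∀ H ∈ S', IsCyc G n H ∧ Φ H) → S'.card ≤ M)
    (S : Finset (Finset (PX V K)))
    (hS : ∀ H ∈ S, H ∈ (gS G K n₀).C ∧ Φ H ∧ H.card = k) : S.card ≤ M := by
  by_cases hem : S = ∅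
  · rw [hem, Finset.card_empty]
    exact Nat.zero_le _
  obtain ⟨H₀, hH₀⟩ := Finset.nonempty_iff_ne_empty.mpr hem
  obtain ⟨h1, _, h3⟩ := hS H₀ hH₀
  obtain ⟨_, n, hn, hc⟩ := Finset.mem_filter.mp h1
  have hk : 2 * n + 4 = k := by
    rw [← h3]
    exact (isCyc_card G n H₀ hc).symm
  refine h n hn hk S ?_
  intro H hH
  obtain ⟨g1, g2, g3⟩ := hS H hH
  obtain ⟨_, n', hn', hc'⟩ := Finset.mem_filter.mp g1
  have hk' := isCyc_card G n' H hc'
  have : n' = n := by omega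
  subst this
  exact ⟨hc', g2⟩

variable {G : SimpleGraph V} {Δ : ℕ}

theorem C1 (hΔ : ∀ v, (univ.filter (fun u => G.Adj v u)).card ≤ Δ) (hΔK : Δ ≤ K) (hK : 0 < K)
    (n₀ : ℕ) (x : PX V K) (T : Finset (PX V K)) (hx : x ∉ T) (hT : T.Nonempty) (m : ℕ)
    (S : Finset (Finset (PX V K)))
    (hS : ∀ H ∈ S, H ∈ (gS G K n₀).C ∧ (x ∈ H ∧ T ⊆ H) ∧ H.card = T.card + 1 + m) :
    S.card ≤ cc n₀ * K ^ (m - 1) := by
  refine lenfix G n₀ (fun H => x ∈ H ∧ T ⊆ H) (T.card + 1 + m) _ ?_ S hS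
  intro n hn hk S' hS'
  refine le_trans (le_trans (Finset.card_le_card ?_) (cyc_set G Δ hΔ hΔK hK n x T hx hT)) ?_
  · intro H hH
    exact Finset.mem_filter.mpr ⟨Finset.mem_univ _, hS' H hH⟩
  have e : 2 * n + 4 - T.card - 2 = m - 1 := by omega
  rw [e]
  exact Nat.mul_le_mul_right _ (cc_mono n n₀ hn.le)

theorem C0 (hΔ : ∀ v, (univ.filter (fun u => G.Adj v u)).card ≤ Δ) (hΔK : Δ ≤ K)
    (n₀ : ℕ) (x : PX V K) (m : ℕ) (S : Finset (Finset (PX V K)))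
    (hS : ∀ H ∈ S, H ∈ (gS G K n₀).C ∧ x ∈ H ∧ H.card = 1 + m) :
    S.card ≤ K ^ m := by
  refine lenfix G n₀ (fun H => x ∈ H) (1 + m) _ ?_ S hS
  intro n hn hk S' hS'
  refine le_trans (le_trans (Finset.card_le_card ?_) (cyc_all G Δ hΔ hΔK n x)) (le_of_eq ?_)
  · intro H hH
    exact Finset.mem_filter.mpr ⟨Finset.mem_univ _, hS' H hH⟩
  congr 1
  omega

theorem C2 (hΔ : ∀ v, (univ.filter (fun u => G.Adj v u)).card ≤ Δ) (hΔK : Δ ≤ K)
    (n₀ : ℕ) (x : PX V K) (u : V) (d : Fin K) (m : ℕ) (S : Finset (Finset (PX V K)))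
    (hS : ∀ H ∈ S, H ∈ (gS G K n₀).C ∧ (x ∈ H ∧ NodeP x u d H) ∧ H.card = 1 + m) :
    S.card ≤ cc n₀ * K ^ (m - 1) := by
  refine lenfix G n₀ (fun H => x ∈ H ∧ NodeP x u d H) (1 + m) _ ?_ S hS
  intro n hn hk S' hS'
  refine le_trans (le_trans (Finset.card_le_card ?_) (cyc_at_node G Δ hΔ hΔK n x u d)) ?_
  · intro H hH
    exact Finset.mem_filter.mpr ⟨Finset.mem_univ _, hS' H hH⟩
  have e : 2 * n + 2 = m - 1 := by omega
  rw [e]
  exact Nat.mul_le_mul_right _ (cc_mono n n₀ hn.le)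

theorem C3 (hΔ : ∀ v, (univ.filter (fun u => G.Adj v u)).card ≤ Δ) (hΔK : Δ ≤ K)
    (n₀ : ℕ) (x : PX V K) (f : Sym2 V) (m : ℕ) (S : Finset (Finset (PX V K)))
    (hS : ∀ H ∈ S, H ∈ (gS G K n₀).C ∧ (x ∈ H ∧ EdgeP x f H) ∧ H.card = 1 + m) :
    S.card ≤ cc n₀ * K ^ (m - 1) := by
  refine lenfix G n₀ (fun H => x ∈ H ∧ EdgeP x f H) (1 + m) _ ?_ S hS
  intro n hn hk S' hS'
  refine le_trans (le_trans (Finset.card_le_card ?_) (cyc_on_edge G Δ hΔ hΔK n x f)) ?_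
  · intro H hH
    exact Finset.mem_filter.mpr ⟨Finset.mem_univ _, hS' H hH⟩
  have e : 2 * n + 2 = m - 1 := by omega
  rw [e]
  exact Nat.mul_le_mul_right _ (cc_mono n n₀ hn.le)

/-- the sets counted by `cnt` in the initial state -/
theorem cnt_st0 (G : SimpleGraph V) (P : Finset (Finset (PX V K))) (A : Finset (PX V K)) (n : ℕ)
    (Q : Finset (PX V K))
    (hQ : Q ∈ P.filter (fun Q => A ⊆ Q ∧ Q \ A ⊆ (st0 G K).R ∪ (st0 G K).L ∧
      ((Q \ A) ∩ (st0 G K).L).card = n)) : Q ∈ P ∧ A ⊆ Q ∧ (Q \ A).card = n := by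
  obtain ⟨h1, h2, h3, h4⟩ := Finset.mem_filter.mp hQ
  refine ⟨h1, h2, ?_⟩
  have e : (Q \ A) ∩ (st0 G K).L = Q \ A := by
    rw [Finset.inter_eq_left]
    have : (st0 G K).R = ∅ := rfl
    rwa [this, Finset.empty_union] at h3
  rwa [e] at h4

theorem card_of_sub (A Q : Finset (PX V K)) (h : A ⊆ Q) (n : ℕ) (hn : (Q \ A).card = n) :
    Q.card = A.card + n := by
  have := Finset.card_sdiff_add_card_eq_card h
  omega

theorem fam1 (hΔ : ∀ v, (univ.filter (fun u => G.Adj v u)).card ≤ Δ) (hΔK : Δ ≤ K) (hK : 0 < K)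
    (n₀ : ℕ) (x y : PX V K) (A : Finset (PX V K)) (n : ℕ) :
    cnt (st0 G K) ((Fm.f1 x y).sets (gS G K n₀)) A n ≤ cc n₀ * K ^ (n - 1) := by
  unfold cnt
  by_cases hcase : x ≠ y ∧ x ∉ A ∧ y ∉ A
  · obtain ⟨hxy, hxA, hyA⟩ := hcase
    obtain ⟨S, hS⟩ : ∃ S : Finset (Finset (PX V K)), S = (gS G K n₀).C.filter
      (fun H => (x ∈ H ∧ insert y A ⊆ H) ∧ H.card = (insert y A).card + 1 + n) := ⟨_, rfl⟩
    have h1 : S.card ≤ cc n₀ * K ^ (n - 1) := by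
      refine C1 hΔ hΔK hK n₀ x (insert y A) ?_ (Finset.insert_nonempty _ _) n S ?_
      · rw [Finset.mem_insert]
        rintro (h | h)
        · exact hxy h
        · exact hxA h
      · intro H hH
        rw [hS] at hH
        exact Finset.mem_filter.mp hH
    refine le_trans (le_trans (Finset.card_le_card ?_)
      (Finset.card_image_le (s := S) (f := fun H => H \ {x, y}))) h1
    intro Q hQ
    obtain ⟨g1, g2, g3⟩ := cnt_st0 G _ A n Q hQ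
    have g1' : Q ∈ ((gS G K n₀).C.filter (fun H => x ≠ y ∧ x ∈ H ∧ y ∈ H)).image
      (fun H => H \ {x, y}) := g1
    rw [Finset.mem_image] at g1' ⊢
    obtain ⟨H, hH, rfl⟩ := g1'
    obtain ⟨hC, _, hxH, hyH⟩ := Finset.mem_filter.mp hH
    refine ⟨H, ?_, rfl⟩
    rw [hS, Finset.mem_filter]
    refine ⟨hC, ⟨hxH, ?_⟩, ?_⟩
    · intro t ht
      rw [Finset.mem_insert] at ht
      rcases ht with rfl | ht
      · exact hyH
      · exact (Finset.mem_sdiff.mp (g2 ht)).1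
    · have h2 := card_of_sub A _ g2 n g3
      have h3 : ({x, y} : Finset (PX V K)) ⊆ H := by
        intro t ht
        simp only [Finset.mem_insert, Finset.mem_singleton] at ht
        rcases ht with rfl | rfl
        · exact hxH
        · exact hyH
      have h4 := Finset.card_sdiff_add_card_eq_card h3
      rw [Finset.card_pair hxy] at h4
      rw [Finset.card_insert_of_notMem hyA]
      omega
  · have hem : ((Fm.f1 x y).sets (gS G K n₀)).filter (fun Q => A ⊆ Q ∧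
        Q \ A ⊆ (st0 G K).R ∪ (st0 G K).L ∧ ((Q \ A) ∩ (st0 G K).L).card = n) = ∅ := by
      rw [Finset.filter_eq_empty_iff]
      intro Q hQ hcon
      have hQ' : Q ∈ ((gS G K n₀).C.filter (fun H => x ≠ y ∧ x ∈ H ∧ y ∈ H)).image
        (fun H => H \ {x, y}) := hQ
      rw [Finset.mem_image] at hQ'
      obtain ⟨H, hH, rfl⟩ := hQ'
      obtain ⟨_, hxy, _, _⟩ := Finset.mem_filter.mp hH
      apply hcase
      refine ⟨hxy, ?_, ?_⟩
      · intro h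
        have := (Finset.mem_sdiff.mp (hcon.1 h)).2
        exact this (by simp)
      · intro h
        have := (Finset.mem_sdiff.mp (hcon.1 h)).2
        exact this (by simp)
    rw [hem, Finset.card_empty]
    exact Nat.zero_le _

/-- families of sets `H.erase x` with an extra property of `H` -/
theorem fam_erase (hΔ : ∀ v, (univ.filter (fun u => G.Adj v u)).card ≤ Δ) (hΔK : Δ ≤ K)
    (hK : 0 < K) (n₀ : ℕ) (x : PX V K) (Φ : Finset (PX V K) → Prop) (A : Finset (PX V K))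
    (n : ℕ) (P : Finset (Finset (PX V K)))
    (hP : ∀ Q ∈ P, ∃ H ∈ (gS G K n₀).C, x ∈ H ∧ Φ H ∧ Q = H.erase x)
    (hΦ : ∀ S : Finset (Finset (PX V K)), (∀ H ∈ S, H ∈ (gS G K n₀).C ∧ (x ∈ H ∧ Φ H) ∧
      H.card = 1 + n) → S.card ≤ cc n₀ * K ^ (n - 1)) :
    cnt (st0 G K) P A n ≤ cc n₀ * K ^ (n - 1) := by
  unfold cnt
  by_cases hxA : x ∈ A
  · have hem : P.filter (fun Q => A ⊆ Q ∧
        Q \ A ⊆ (st0 G K).R ∪ (st0 G K).L ∧ ((Q \ A) ∩ (st0 G K).L).card = n) = ∅ := by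
      rw [Finset.filter_eq_empty_iff]
      intro Q hQ hcon
      obtain ⟨H, _, _, _, rfl⟩ := hP Q hQ
      have := hcon.1 hxA
      simp at this
    rw [hem, Finset.card_empty]
    exact Nat.zero_le _
  obtain ⟨S, hS⟩ : ∃ S : Finset (Finset (PX V K)), S = (gS G K n₀).C.filter
      (fun H => (x ∈ H ∧ Φ H) ∧ A ⊆ H ∧ H.card = A.card + 1 + n) := ⟨_, rfl⟩
  have h1 : S.card ≤ cc n₀ * K ^ (n - 1) := by
    rcases A.eq_empty_or_nonempty with hA | hA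
    · refine hΦ S ?_
      intro H hH
      rw [hS] at hH
      obtain ⟨g1, g2, _, g4⟩ := Finset.mem_filter.mp hH
      rw [hA, Finset.card_empty, zero_add] at g4
      exact ⟨g1, g2, g4⟩
    · refine C1 hΔ hΔK hK n₀ x A hxA hA n S ?_
      intro H hH
      rw [hS] at hH
      obtain ⟨g1, g2, g3, g4⟩ := Finset.mem_filter.mp hH
      exact ⟨g1, ⟨g2.1, g3⟩, g4⟩
  refine le_trans (le_trans (Finset.card_le_card ?_)
    (Finset.card_image_le (s := S) (f := fun H => H.erase x))) h1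
  intro Q hQ
  obtain ⟨g1, g2, g3⟩ := cnt_st0 G _ A n Q hQ
  obtain ⟨H, hC, hxH, hΦH, rfl⟩ := hP Q g1
  rw [Finset.mem_image]
  refine ⟨H, ?_, rfl⟩
  rw [hS, Finset.mem_filter]
  refine ⟨hC, ⟨hxH, hΦH⟩, g2.trans (Finset.erase_subset _ _), ?_⟩
  have h2 := card_of_sub A _ g2 n g3
  rw [Finset.card_erase_of_mem hxH] at h2
  have : 0 < H.card := Finset.card_pos.mpr ⟨x, hxH⟩
  omega

theorem fam2 (hΔ : ∀ v, (univ.filter (fun u => G.Adj v u)).card ≤ Δ) (hΔK : Δ ≤ K) (hK : 0 < K)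
    (n₀ : ℕ) (x : PX V K) (ν : V × Fin K) (A : Finset (PX V K)) (n : ℕ) :
    cnt (st0 G K) ((Fm.f2 x ν).sets (gS G K n₀)) A n ≤ cc n₀ * K ^ (n - 1) := by
  refine fam_erase hΔ hΔK hK n₀ x (fun H => NodeP x ν.1 ν.2 H) A n _ ?_ ?_
  · intro Q hQ
    have hQ' : Q ∈ ((gS G K n₀).C.filter (fun H => x ∈ H ∧ ∃ y ∈ H, y ≠ x ∧
      ν ∈ (gS G K n₀).nd y)).image (fun H => H.erase x) := hQ
    rw [Finset.mem_image] at hQ'
    obtain ⟨H, hH, rfl⟩ := hQ'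
    obtain ⟨hC, hxH, y, hyH, hyx, hν⟩ := Finset.mem_filter.mp hH
    refine ⟨H, hC, hxH, ⟨y, hyH, hyx, ?_⟩, rfl⟩
    have hν' : ν ∈ ndG y := hν
    unfold ndG at hν'
    exact (Finset.mem_filter.mp hν').2
  · intro S hS
    exact C2 hΔ hΔK n₀ x ν.1 ν.2 n S hS

theorem fam3 (hΔ : ∀ v, (univ.filter (fun u => G.Adj v u)).card ≤ Δ) (hΔK : Δ ≤ K) (hK : 0 < K)
    (n₀ : ℕ) (x : PX V K) (e : Sym2 V) (A : Finset (PX V K)) (n : ℕ) :
    cnt (st0 G K) ((Fm.f3 x e).sets (gS G K n₀)) A n ≤ cc n₀ * K ^ (n - 1) := by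
  refine fam_erase hΔ hΔK hK n₀ x (fun H => EdgeP x e H) A n _ ?_ ?_
  · intro Q hQ
    have hQ' : Q ∈ ((gS G K n₀).C.filter (fun H => x ∈ H ∧ ∃ y ∈ H, y ≠ x ∧
      (gS G K n₀).ed y = e)).image (fun H => H.erase x) := hQ
    rw [Finset.mem_image] at hQ'
    obtain ⟨H, hH, rfl⟩ := hQ'
    obtain ⟨hC, hxH, y, hyH, hyx, he⟩ := Finset.mem_filter.mp hH
    exact ⟨H, hC, hxH, ⟨y, hyH, hyx, he⟩, rfl⟩
  · intro S hS
    exact C3 hΔ hΔK n₀ x e n S hS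

end Pool.Agent.H95.ACS
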