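import Pool.Agent.H77.AC.Graph

/-!
# ACS-ROT: rotations and reflections of alternating cycles
-/

set_option autoImplicit false

open Finset
open scoped Classical

namespace Pool.Agent.H95.ACS

open Pool.Agent.H77.AC

variable {V : Type} [Fintype V] [DecidableEq V] {K : ℕ}

theorem par_add {n : ℕ} (i j : Fin (2 * n + 4)) :
    ((i + j : Fin (2 * n + 4)) : ℕ) % 2 = ((i : ℕ) + (j : ℕ)) % 2 := by
  rw [Fin.val_add, Nat.mod_mod_of_dvd _ (by omega : 2 ∣ 2 * n + 4)]

theorem par_neg {n : ℕ} (i : Fin (2 * n + 4)) :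
    ((-i : Fin (2 * n + 4)) : ℕ) % 2 = (i : ℕ) % 2 := by
  have h := par_add i (-i)
  rw [add_neg_cancel] at h
  have h0 : ((0 : Fin (2 * n + 4)) : ℕ) = 0 := rfl
  rw [h0] at h
  omega

theorem val_one_fin {n : ℕ} : ((1 : Fin (2 * n + 4)) : ℕ) = 1 := by
  have : ((1 : Fin (2 * n + 4)) : ℕ) = 1 % (2 * n + 4) := rfl
  rw [this]
  exact Nat.mod_eq_of_lt (by omega)

theorem cstep_rot {n : ℕ} (v : Fin (2 * n + 4) → V) (b c : Fin K) (i₀ i : Fin (2 * n + 4)) :
    cstep (fun j => v (j + i₀)) (if (i₀ : ℕ) % 2 = 0 then b else c)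
      (if (i₀ : ℕ) % 2 = 0 then c else b) i = cstep v b c (i + i₀) := by
  unfold cstep
  have e1 : i + 1 + i₀ = i + i₀ + 1 := by rw [add_right_comm]
  have hp := par_add i i₀
  refine Prod.ext ?_ ?_
  · simp only [e1]
  · simp only [hp]
    rcases Nat.mod_two_eq_zero_or_one (i : ℕ) with h1 | h1 <;>
      rcases Nat.mod_two_eq_zero_or_one (i₀ : ℕ) with h2 | h2
    · have : ((i : ℕ) + (i₀ : ℕ)) % 2 = 0 := by omega
      simp [h1, h2, this]
    · have : ((i : ℕ) + (i₀ : ℕ)) % 2 = 1 := by omega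
      simp [h1, h2, this]
    · have : ((i : ℕ) + (i₀ : ℕ)) % 2 = 1 := by omega
      simp [h1, h2, this]
    · have : ((i : ℕ) + (i₀ : ℕ)) % 2 = 0 := by omega
      simp [h1, h2, this]

theorem cstep_rev {n : ℕ} (v : Fin (2 * n + 4) → V) (b c : Fin K) (i : Fin (2 * n + 4)) :
    cstep (fun j => v (1 - j)) b c i = cstep v b c (-i) := by
  unfold cstep
  refine Prod.ext ?_ ?_
  · have e1 : (1 : Fin (2 * n + 4)) - (i + 1) = -i := by abel
    have e2 : (1 : Fin (2 * n + 4)) - i = -i + 1 := by abel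
    simp only [e1, e2]
    exact Sym2.eq_swap
  · simp only [par_neg]

/-- normal form of a cycle through `x = (s(p,q), b)` -/
theorem cyc_param (G : SimpleGraph V) (n : ℕ) (H : Finset (PX V K)) (hH : IsCyc G n H)
    (p q : V) (b : Fin K) (hx : (s(p, q), b) ∈ H) :
    ∃ (v : Fin (2 * n + 4) → V) (c : Fin K), Function.Injective v ∧
      (∀ i, G.Adj (v i) (v (i + 1))) ∧ b ≠ c ∧ v 0 = p ∧ v 1 = q ∧
      H = univ.image (cstep v b c) := by
  obtain ⟨v, b₀, c₀, hv, hadj, hbc, rfl⟩ := hH
  rw [Finset.mem_image] at hx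
  obtain ⟨i₀, _, hi⟩ := hx
  set w : Fin (2 * n + 4) → V := fun j => v (j + i₀) with hw
  have hwinj : Function.Injective w := fun x y hxy => by
    have := hv hxy
    exact add_right_cancel this
  have hwadj : ∀ i, G.Adj (w i) (w (i + 1)) := by
    intro i
    have := hadj (i + i₀)
    rw [hw]
    simp only
    rwa [add_right_comm i 1 i₀]
  set c₁ : Fin K := (if (i₀ : ℕ) % 2 = 0 then c₀ else b₀) with hc₁
  have hb : (if (i₀ : ℕ) % 2 = 0 then b₀ else c₀) = b := by
    have := congrArg Prod.snd hi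
    unfold cstep at this
    simpa using this
  have hcs : ∀ i, cstep w b c₁ i = cstep v b₀ c₀ (i + i₀) := by
    intro i
    rw [← hb]
    exact cstep_rot v b₀ c₀ i₀ i
  have himg : univ.image (cstep v b₀ c₀) = univ.image (cstep w b c₁) := by
    ext y
    simp only [Finset.mem_image, Finset.mem_univ, true_and]
    constructor
    · rintro ⟨i, rfl⟩
      exact ⟨i - i₀, by rw [hcs, sub_add_cancel]⟩
    · rintro ⟨i, rfl⟩
      exact ⟨i + i₀, (hcs i).symm⟩
  have hbc₁ : b ≠ c₁ := by
    rw [← hb, hc₁]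
    by_cases h0 : (i₀ : ℕ) % 2 = 0
    · simp only [if_pos h0]
      exact hbc
    · simp only [if_neg h0]
      exact hbc.symm
  have hed : s(w 0, w 1) = s(p, q) := by
    have h1 := congrArg Prod.fst hi
    have h2 := congrArg Prod.fst (hcs 0)
    rw [zero_add] at h2
    rw [h1] at h2
    unfold cstep at h2
    simpa using h2
  rw [Sym2.eq_iff] at hed
  rcases hed with ⟨h0, h1⟩ | ⟨h0, h1⟩
  · exact ⟨w, c₁, hwinj, hwadj, hbc₁, h0, h1, himg⟩
  · refine ⟨fun j => w (1 - j), c₁, ?_, ?_, hbc₁, ?_, ?_, ?_⟩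
    · intro x y hxy
      have := hwinj hxy
      exact sub_right_injective this
    · intro i
      have h2 := hwadj (-i)
      have e1 : (1 : Fin (2 * n + 4)) - (i + 1) = -i := by abel
      have e2 : (1 : Fin (2 * n + 4)) - i = -i + 1 := by abel
      simp only [e1, e2]
      exact h2.symm
    · simp only [sub_zero]
      exact h1
    · simp only [sub_self]
      exact h0
    · rw [himg]
      ext y
      simp only [Finset.mem_image, Finset.mem_univ, true_and]
      constructor
      · rintro ⟨i, rfl⟩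
        exact ⟨-i, by rw [cstep_rev, neg_neg]⟩
      · rintro ⟨i, rfl⟩
        exact ⟨-i, (cstep_rev w b c₁ i).symm⟩

/-- a vertex of an alternating cycle lies on a pair of each of its two colours -/
theorem cyc_node (n : ℕ) (v : Fin (2 * n + 4) → V) (b c : Fin K) (i : Fin (2 * n + 4))
    (d : Fin K) (hd : d = b ∨ d = c) :
    ∃ j, v i ∈ (cstep v b c j).1 ∧ (cstep v b c j).2 = d := by
  have hpar : ((i - 1 : Fin (2 * n + 4)) : ℕ) % 2 = 0 ↔ ¬ (i : ℕ) % 2 = 0 := by
    have h := par_add (i - 1) 1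
    rw [sub_add_cancel, val_one_fin] at h
    omega
  have hm1 : v i ∈ (cstep v b c i).1 := by
    unfold cstep
    simp
  have hm2 : v i ∈ (cstep v b c (i - 1)).1 := by
    unfold cstep
    simp
  by_cases h0 : (i : ℕ) % 2 = 0
  · have h1 : ¬ ((i - 1 : Fin (2 * n + 4)) : ℕ) % 2 = 0 := by
      rw [hpar]
      exact fun h => h h0
    rcases hd with rfl | rfl
    · refine ⟨i, hm1, ?_⟩
      unfold cstep
      simp [h0]
    · refine ⟨i - 1, hm2, ?_⟩
      unfold cstep
      simp only
      rw [if_neg h1]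
  · have h1 : ((i - 1 : Fin (2 * n + 4)) : ℕ) % 2 = 0 := hpar.mpr h0
    rcases hd with rfl | rfl
    · refine ⟨i - 1, hm2, ?_⟩
      unfold cstep
      simp only
      rw [if_pos h1]
    · refine ⟨i, hm1, ?_⟩
      unfold cstep
      simp only
      rw [if_neg h0]

/-- the steps of an injective cycle are different -/
theorem cstep_inj {n : ℕ} (v : Fin (2 * n + 4) → V) (hv : Function.Injective v) (b c : Fin K) :
    Function.Injective (fun i => (cstep v b c i).1) := by
  intro i j hij
  simp only [cstep] at hij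
  rw [Sym2.eq_iff] at hij
  rcases hij with ⟨h1, _⟩ | ⟨h1, h2⟩
  · exact hv h1
  · exfalso
    have e1 := hv h1
    have e2 := hv h2
    rw [e1] at e2
    have e3 : (1 : Fin (2 * n + 4)) + 1 = 0 := by
      have : j + 1 + 1 = j + 0 := by rw [add_zero]; exact e2
      rw [add_assoc] at this
      exact add_left_cancel this
    have e4 := congrArg (fun t : Fin (2 * n + 4) => (t : ℕ)) e3
    simp only [Fin.val_add, val_one_fin] at e4
    rw [Nat.mod_eq_of_lt (by omega)] at e4
    have e5 : ((0 : Fin (2 * n + 4)) : ℕ) = 0 := rfl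
    omega

theorem cyc_card {n : ℕ} (v : Fin (2 * n + 4) → V) (hv : Function.Injective v) (b c : Fin K) :
    (univ.image (cstep v b c)).card = 2 * n + 4 := by
  rw [Finset.card_image_of_injective, Finset.card_univ, Fintype.card_fin]
  intro i j hij
  exact cstep_inj v hv b c (congrArg Prod.fst hij)

end Pool.Agent.H95.ACS
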